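import Mathlib

set_option autoImplicit false

namespace Pool.Agent.H328R3

open Finset

open scoped Classical in
/-- the number of prime factors of `m` which lie in `S`, counted with multiplicity -/
noncomputable def cn (S : Set ℕ) (m : ℕ) : ℕ :=
  m.primeFactorsList.countP (fun p => decide (p ∈ S))

lemma cn_mul (S : Set ℕ) {m n : ℕ} (hm : m ≠ 0) (hn : n ≠ 0) :
    cn S (m * n) = cn S m + cn S n := by
  unfold cn
  rw [(Nat.perm_primeFactorsList_mul hm hn).countP_eq, List.countP_append]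

lemma even_one (S : Set ℕ) {a b A B s x : ℕ} (ha : a ≠ 0) (hb : b ≠ 0) (hA : A ≠ 0) (hB : B ≠ 0)
    (hs : s ≠ 0) (hx : x ≠ 0) :
    Even (cn S (a * b)) ∨ Even (cn S (a * A * (s ^ 2 * B))) ∨
      Even (cn S (b * B * (x ^ 2 * A))) := by
  rw [pow_two, pow_two]
  have e1 := cn_mul S ha hb
  have e2 : cn S (a * A * (s * s * B)) = cn S a + cn S A + (cn S s + cn S s + cn S B) := by
    rw [cn_mul S (mul_ne_zero ha hA) (mul_ne_zero (mul_ne_zero hs hs) hB), cn_mul S ha hA,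
      cn_mul S (mul_ne_zero hs hs) hB, cn_mul S hs hs]
  have e3 : cn S (b * B * (x * x * A)) = cn S b + cn S B + (cn S x + cn S x + cn S A) := by
    rw [cn_mul S (mul_ne_zero hb hB) (mul_ne_zero (mul_ne_zero hx hx) hA), cn_mul S hb hB,
      cn_mul S (mul_ne_zero hx hx) hA, cn_mul S hx hx]
  rw [e1, e2, e3]
  simp only [Nat.even_iff]
  omega

/-- all prime factors of `m` exceed `z` -/
def Rough (z m : ℕ) : Prop := ∀ p : ℕ, p.Prime → p ∣ m → z < p

lemma Rough.mul {z m n : ℕ} (hm : Rough z m) (hn : Rough z n) : Rough z (m * n) := by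
  intro p hp h
  rcases (Nat.Prime.dvd_mul hp).1 h with h | h
  · exact hm p hp h
  · exact hn p hp h

lemma Rough.pow {z m : ℕ} (hm : Rough z m) (j : ℕ) : Rough z (m ^ j) :=
  fun p hp h => hm p hp (hp.dvd_of_dvd_pow h)

lemma card_divisors_le {m : ℕ} (hm : m ≠ 0) :
    m.divisors.card ≤ 2 ^ m.primeFactorsList.length := by
  rw [Nat.card_divisors hm]
  calc ∏ p ∈ m.primeFactors, (m.factorization p + 1)
      ≤ ∏ p ∈ m.primeFactors, 2 ^ m.factorization p :=
        prod_le_prod' fun p _ => Nat.lt_two_pow_self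
    _ = 2 ^ ∑ p ∈ m.primeFactors, m.factorization p := by rw [prod_pow_eq_pow_sum]
    _ = 2 ^ m.primeFactorsList.length := by
        congr 1
        rw [← List.sum_toFinset_count_eq_length]
        apply sum_congr rfl
        intro p _
        rw [Nat.primeFactorsList_count_eq]

lemma length_le {z R m : ℕ} (hz : 1 < z) (hm : m ≠ 0) (h : Rough z m) (hle : m ≤ z ^ R) :
    m.primeFactorsList.length ≤ R := by
  have h1 : z ^ m.primeFactorsList.length ≤ m.primeFactorsList.prod := by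
    apply List.pow_card_le_prod
    intro p hp
    exact (h p (Nat.prime_of_mem_primeFactorsList hp) (Nat.dvd_of_mem_primeFactorsList hp)).le
  rw [Nat.prod_primeFactorsList hm] at h1
  exact (Nat.pow_le_pow_iff_right hz).1 (h1.trans hle)

lemma fiber_count {α : Type*} [DecidableEq α] (G : Finset α) (F key : α → ℕ) (m : ℕ → ℕ) (D : ℕ)
    (E : Set ℕ) (hE : E.Finite) (hF : ∀ g ∈ G, F g ∈ E) (hkey : ∀ g ∈ G, key g ∣ m (F g))
    (hm0 : ∀ g ∈ G, m (F g) ≠ 0)
    (hD : ∀ g ∈ G, (m (F g)).divisors.card ≤ D)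
    (hinj : ∀ g ∈ G, ∀ g' ∈ G, F g = F g' → key g = key g' → g = g') :
    G.card ≤ D * E.ncard := by
  have h1 := Finset.card_le_mul_card_image (f := F) G D (by
    intro n hn
    rw [mem_image] at hn
    obtain ⟨g0, hg0, rfl⟩ := hn
    refine le_trans ?_ (hD g0 hg0)
    apply Finset.card_le_card_of_injOn key
    · intro g hg
      simp only [coe_filter, Set.mem_ofPred_eq] at hg
      simp only [Finset.mem_coe, Nat.mem_divisors]
      rw [← hg.2]
      exact ⟨hkey g hg.1, hm0 g hg.1⟩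
    · intro g hg g' hg' h
      simp only [coe_filter, Set.mem_ofPred_eq] at hg hg'
      exact hinj g hg.1 g' hg'.1 (hg.2.trans hg'.2.symm) h)
  refine h1.trans (Nat.mul_le_mul_left _ ?_)
  rw [← Set.ncard_coe_finset]
  apply Set.ncard_le_ncard _ hE
  intro n hn
  simp only [coe_image, Set.mem_image, Finset.mem_coe] at hn
  obtain ⟨g, hg, rfl⟩ := hn
  exact hF g hg

/-- the set of good integers -/
def ES (φ : ℕ → ℕ) (S : Set ℕ) (z X r : ℕ) : Set ℕ :=
  {n : ℕ | 1 < n ∧ n ≤ X ∧ Rough z (n * φ n) ∧ (n * φ n).primeFactorsList.length ≤ r ∧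
    Even (cn S (n * φ n))}

lemma ES_finite (φ : ℕ → ℕ) (S : Set ℕ) (z X r : ℕ) : (ES φ S z X r).Finite :=
  (Set.finite_Iic X).subset fun _ hn => hn.2.1

theorem count_le (φ ψ : ℕ → ℕ) (G : Finset (ℕ × ℕ)) (s x a b A B : ℕ × ℕ → ℕ) (z X D r : ℕ)
    (S : Set ℕ)
    (h1 : ∀ g ∈ G, φ (a g) = b g) (h2 : ∀ g ∈ G, φ (a g * A g) = s g ^ 2 * B g)
    (h3 : ∀ g ∈ G, φ (b g * B g) = x g ^ 2 * A g) (h4 : ∀ g ∈ G, ψ (a g) = s g * x g)
    (hs : ∀ g ∈ G, Rough z (s g)) (hx : ∀ g ∈ G, Rough z (x g)) (ha : ∀ g ∈ G, Rough z (a g))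
    (hb : ∀ g ∈ G, Rough z (b g)) (hA : ∀ g ∈ G, Rough z (A g)) (hB : ∀ g ∈ G, Rough z (B g))
    (hs0 : ∀ g ∈ G, s g ≠ 0) (hx0 : ∀ g ∈ G, x g ≠ 0)
    (ha1 : ∀ g ∈ G, 1 < a g) (hb1 : ∀ g ∈ G, 1 < b g) (hA0 : ∀ g ∈ G, A g ≠ 0)
    (hB0 : ∀ g ∈ G, B g ≠ 0) (haX : ∀ g ∈ G, a g * A g ≤ X) (hbX : ∀ g ∈ G, b g * B g ≤ X)
    (hD1 : ∀ g ∈ G, (s g * x g).divisors.card ≤ D)
    (hD2 : ∀ g ∈ G, (s g ^ 2 * B g).divisors.card ≤ D)
    (hD3 : ∀ g ∈ G, (x g ^ 2 * A g).divisors.card ≤ D)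
    (hr1 : ∀ g ∈ G, (a g * b g).primeFactorsList.length ≤ r)
    (hr2 : ∀ g ∈ G, (a g * A g * (s g ^ 2 * B g)).primeFactorsList.length ≤ r)
    (hr3 : ∀ g ∈ G, (b g * B g * (x g ^ 2 * A g)).primeFactorsList.length ≤ r)
    (hi1 : ∀ g ∈ G, ∀ g' ∈ G, a g = a g' → s g = s g' → g = g')
    (hi2 : ∀ g ∈ G, ∀ g' ∈ G, a g * A g = a g' * A g' → s g = s g' → g = g')
    (hi3 : ∀ g ∈ G, ∀ g' ∈ G, b g * B g = b g' * B g' → x g = x g' → g = g') :
    G.card ≤ 3 * D * (ES φ S z X r).ncard := by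
  classical
  set G1 := G.filter (fun g => Even (cn S (a g * b g))) with hG1
  set G2 := G.filter (fun g => Even (cn S (a g * A g * (s g ^ 2 * B g)))) with hG2
  set G3 := G.filter (fun g => Even (cn S (b g * B g * (x g ^ 2 * A g)))) with hG3
  have hcov : G ⊆ G1 ∪ (G2 ∪ G3) := by
    intro g hg
    have := even_one S (a := a g) (b := b g) (A := A g) (B := B g) (s := s g) (x := x g)
      (by have := ha1 g hg; omega) (by have := hb1 g hg; omega) (hA0 g hg) (hB0 g hg) (hs0 g hg)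
      (hx0 g hg)
    simp only [mem_union, hG1, hG2, hG3, mem_filter]
    tauto
  have c1 : G1.card ≤ D * (ES φ S z X r).ncard := by
    apply fiber_count G1 a s ψ D _ (ES_finite φ S z X r)
    · intro g hg
      rw [hG1, mem_filter] at hg
      refine ⟨ha1 g hg.1, ?_, ?_, ?_, ?_⟩
      · exact (Nat.le_mul_of_pos_right _ (Nat.pos_of_ne_zero (hA0 g hg.1))).trans (haX g hg.1)
      · rw [h1 g hg.1]; exact (ha g hg.1).mul (hb g hg.1)
      · rw [h1 g hg.1]; exact hr1 g hg.1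
      · rw [h1 g hg.1]; exact hg.2
    · intro g hg
      rw [hG1, mem_filter] at hg
      rw [h4 g hg.1]
      exact Dvd.intro _ rfl
    · intro g hg
      rw [hG1, mem_filter] at hg
      rw [h4 g hg.1]
      exact mul_ne_zero (hs0 g hg.1) (hx0 g hg.1)
    · intro g hg
      rw [hG1, mem_filter] at hg
      rw [h4 g hg.1]
      exact hD1 g hg.1
    · intro g hg g' hg' e1 e2
      rw [hG1, mem_filter] at hg hg'
      exact hi1 g hg.1 g' hg'.1 e1 e2
  have c2 : G2.card ≤ D * (ES φ S z X r).ncard := by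
    apply fiber_count G2 (fun g => a g * A g) s φ D _ (ES_finite φ S z X r)
    · intro g hg
      rw [hG2, mem_filter] at hg
      refine ⟨?_, haX g hg.1, ?_, ?_, ?_⟩
      · exact lt_of_lt_of_le (ha1 g hg.1)
          (Nat.le_mul_of_pos_right _ (Nat.pos_of_ne_zero (hA0 g hg.1)))
      · rw [h2 g hg.1]
        exact ((ha g hg.1).mul (hA g hg.1)).mul (((hs g hg.1).pow 2).mul (hB g hg.1))
      · rw [h2 g hg.1]; exact hr2 g hg.1
      · rw [h2 g hg.1]; exact hg.2
    · intro g hg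
      rw [hG2, mem_filter] at hg
      beta_reduce
      rw [h2 g hg.1, pow_two, mul_assoc]
      exact Dvd.intro _ rfl
    · intro g hg
      rw [hG2, mem_filter] at hg
      beta_reduce
      rw [h2 g hg.1]
      exact mul_ne_zero (pow_ne_zero 2 (hs0 g hg.1)) (hB0 g hg.1)
    · intro g hg
      rw [hG2, mem_filter] at hg
      beta_reduce
      rw [h2 g hg.1]
      exact hD2 g hg.1
    · intro g hg g' hg' e1 e2
      rw [hG2, mem_filter] at hg hg'
      exact hi2 g hg.1 g' hg'.1 e1 e2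
  have c3 : G3.card ≤ D * (ES φ S z X r).ncard := by
    apply fiber_count G3 (fun g => b g * B g) x φ D _ (ES_finite φ S z X r)
    · intro g hg
      rw [hG3, mem_filter] at hg
      refine ⟨?_, hbX g hg.1, ?_, ?_, ?_⟩
      · exact lt_of_lt_of_le (hb1 g hg.1)
          (Nat.le_mul_of_pos_right _ (Nat.pos_of_ne_zero (hB0 g hg.1)))
      · rw [h3 g hg.1]
        exact ((hb g hg.1).mul (hB g hg.1)).mul (((hx g hg.1).pow 2).mul (hA g hg.1))
      · rw [h3 g hg.1]; exact hr3 g hg.1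
      · rw [h3 g hg.1]; exact hg.2
    · intro g hg
      rw [hG3, mem_filter] at hg
      beta_reduce
      rw [h3 g hg.1, pow_two, mul_assoc]
      exact Dvd.intro _ rfl
    · intro g hg
      rw [hG3, mem_filter] at hg
      beta_reduce
      rw [h3 g hg.1]
      exact mul_ne_zero (pow_ne_zero 2 (hx0 g hg.1)) (hA0 g hg.1)
    · intro g hg
      rw [hG3, mem_filter] at hg
      beta_reduce
      rw [h3 g hg.1]
      exact hD3 g hg.1
    · intro g hg g' hg' e1 e2
      rw [hG3, mem_filter] at hg hg'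
      exact hi3 g hg.1 g' hg'.1 e1 e2
  calc G.card ≤ (G1 ∪ (G2 ∪ G3)).card := card_le_card hcov
    _ ≤ G1.card + (G2.card + G3.card) :=
        (card_union_le _ _).trans (Nat.add_le_add_left (card_union_le _ _) _)
    _ ≤ 3 * D * (ES φ S z X r).ncard := by
        calc _ ≤ D * (ES φ S z X r).ncard + (D * (ES φ S z X r).ncard +
              D * (ES φ S z X r).ncard) := Nat.add_le_add c1 (Nat.add_le_add c2 c3)
          _ = _ := by ring

end Pool.Agent.H328R3
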