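import Pool.Agent.H328R3.Poly
import Pool.Agent.H328R3.Cnt

set_option autoImplicit false

namespace Pool.Agent.H328R3

open Finset Polynomial

/-- the domain of the parameters -/
def Dm (M y0 t0 T0 y t : ℕ) : Prop :=
  y % M = y0 % M ∧ t % M = t0 % M ∧ 0 < y ∧ y < t ∧ T0 ≤ t

/-- data of a two-parameter family of three pairs `(n, φ n)` whose product is a square -/
structure Fam (φ : ℕ → ℕ) where
  M : ℕ
  y0 : ℕ
  t0 : ℕ
  C1 : ℕ
  T0 : ℕ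
  hM : 0 < M
  hM7 : ∀ p : ℕ, p.Prime → p < 7 → p ∣ M
  hy0 : ∀ p : ℕ, p.Prime → p ∣ M → ¬ p ∣ y0
  hy0M : y0 < M
  s : ℕ → ℕ → ℕ
  x : ℕ → ℕ → ℕ
  a : ℕ → ℕ → ℕ
  b : ℕ → ℕ → ℕ
  A : ℕ → ℕ → ℕ
  B : ℕ → ℕ → ℕ
  ψ : ℕ → ℕ
  g : ℕ → ℕ → ℤ
  h1 : ∀ y t, Dm M y0 t0 T0 y t → φ (a y t) = b y t
  h2 : ∀ y t, Dm M y0 t0 T0 y t → φ (a y t * A y t) = s y t ^ 2 * B y t
  h3 : ∀ y t, Dm M y0 t0 T0 y t → φ (b y t * B y t) = x y t ^ 2 * A y t
  h4 : ∀ y t, Dm M y0 t0 T0 y t → ψ (a y t) = s y t * x y t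
  hpos : ∀ y t, Dm M y0 t0 T0 y t → s y t ≠ 0 ∧ x y t ≠ 0 ∧ 1 < a y t ∧ 1 < b y t ∧ A y t ≠ 0 ∧
    B y t ≠ 0
  hbd : ∀ y t, Dm M y0 t0 T0 y t → a y t * A y t ≤ C1 * t ^ 4 ∧ b y t * B y t ≤ C1 * t ^ 4 ∧
    s y t * x y t ≤ C1 * t ^ 4 ∧ s y t ^ 2 * B y t ≤ C1 * t ^ 4 ∧ x y t ^ 2 * A y t ≤ C1 * t ^ 4
  hloc : ∀ y t, Dm M y0 t0 T0 y t → ∀ p : ℕ, p.Prime → p ∣ M →
    ¬ p ∣ s y t * x y t * a y t * b y t * A y t * B y t
  hpol : ∀ y t, Dm M y0 t0 T0 y t → ∀ p : ℕ, p.Prime → 7 ≤ p → ¬ p ∣ M →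
    p ∣ s y t * x y t * a y t * b y t * A y t * B y t → p ∣ y ∨ (p : ℤ) ∣ g y t
  hg : ∀ y, ∀ p : ℕ, p.Prime → 7 ≤ p → ¬ p ∣ M → ∃ F : (ZMod p)[X], F ≠ 0 ∧ F.natDegree ≤ 6 ∧
      ∀ t : ℕ, ((g y t : ℤ) : ZMod p) = F.eval (t : ZMod p)
  hi1 : ∀ y t y' t', Dm M y0 t0 T0 y t → Dm M y0 t0 T0 y' t' → a y t = a y' t' →
    s y t = s y' t' → y = y' ∧ t = t'
  hi2 : ∀ y t y' t', Dm M y0 t0 T0 y t → Dm M y0 t0 T0 y' t' →
    a y t * A y t = a y' t' * A y' t' → s y t = s y' t' → y = y' ∧ t = t'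
  hi3 : ∀ y t y' t', Dm M y0 t0 T0 y t → Dm M y0 t0 T0 y' t' →
    b y t * B y t = b y' t' * B y' t' → x y t = x y' t' → y = y' ∧ t = t'

lemma exists_level' (D : ℕ) (hD : 0 < D) (I0 k : ℕ) (hk : 2 ^ (D * 2 ^ I0) ≤ k) :
    ∃ I, I0 ≤ I ∧ 2 ^ (D * 2 ^ I) ≤ k ∧ k < 2 ^ (2 * D * 2 ^ I) := by
  classical
  have hex : ∃ J, I0 ≤ J ∧ k < 2 ^ (D * 2 ^ (J + 1)) := by
    refine ⟨I0 + k, by omega, ?_⟩
    calc k < 2 ^ k := Nat.lt_two_pow_self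
      _ ≤ 2 ^ (D * 2 ^ (I0 + k + 1)) := by
        apply Nat.pow_le_pow_right (by norm_num)
        calc k ≤ 2 ^ k := Nat.lt_two_pow_self.le
          _ ≤ 2 ^ (I0 + k + 1) := Nat.pow_le_pow_right (by norm_num) (by omega)
          _ ≤ D * 2 ^ (I0 + k + 1) := Nat.le_mul_of_pos_left _ hD
  obtain ⟨h1, h2⟩ := Nat.find_spec hex
  refine ⟨Nat.find hex, h1, ?_, ?_⟩
  · rcases Nat.eq_or_lt_of_le h1 with h | h
    · rw [← h]; exact hk
    · have h3 := Nat.find_min hex (m := Nat.find hex - 1) (by omega)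
      push Not at h3
      have h4 := h3 (by omega)
      rwa [show Nat.find hex - 1 + 1 = Nat.find hex by omega] at h4
  · convert h2 using 2
    rw [pow_succ]
    ring

/-- many admissible pairs of parameters at a given sieve level -/
theorem Fam.many {φ : ℕ → ℕ} (F : Fam φ) (I k : ℕ) (hI : 20 ≤ I) (hk : 2 ^ (1300 * 2 ^ I) ≤ k) :
    ∃ G : Finset (ℕ × ℕ), ((k : ℝ) / 4 * (1 / 2) ^ (139 * I)) ^ 2 ≤ (G.card : ℝ) ∧
      ∀ g ∈ G, g.1 % F.M = F.y0 % F.M ∧ g.2 % F.M = F.t0 % F.M ∧ 0 < g.1 ∧ g.1 < g.2 ∧ k ≤ g.2 ∧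
        g.2 ≤ (2 * F.M + F.t0) * k ∧ Rough (2 ^ 2 ^ I) g.1 ∧
        ∀ p : ℕ, p.Prime → 7 ≤ p → ¬ p ∣ F.M → p ≤ 2 ^ 2 ^ I → ¬ (p : ℤ) ∣ F.g g.1 g.2 := by
  classical
  have hM := F.hM
  have hk1 : 1 ≤ k := le_trans Nat.one_le_two_pow hk
  -- lower bound for the sieve
  have hlow : (k : ℝ) / 4 * (1 / 2) ^ (139 * I)
      ≤ (k : ℝ) * (Real.exp (-96) ^ I / 2) - (2 : ℝ) ^ (1292 * 2 ^ I) := by
    have e1 : ((1 : ℝ) / 2) ^ (139 * I) ≤ Real.exp (-96) ^ I := by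
      rw [pow_mul]
      apply pow_le_pow_left₀ (by positivity)
      rw [Real.exp_neg, one_div, inv_pow]
      exact inv_anti₀ (Real.exp_pos _) Pool.Agent.H505R2.exp96
    have e2 : (2 : ℝ) ^ (1292 * 2 ^ I) ≤ (k : ℝ) / 4 * (1 / 2) ^ (139 * I) := by
      rw [one_div, inv_pow, ← div_eq_mul_inv, div_div, le_div_iff₀ (by positivity)]
      have e3 : (2 : ℝ) ^ (1292 * 2 ^ I) * (4 * 2 ^ (139 * I)) ≤ 2 ^ (1300 * 2 ^ I) := by
        have e5 : 139 * I + 2 ≤ 8 * 2 ^ I := by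
          have h3 : ∀ n : ℕ, 20 ≤ n → 139 * n + 2 ≤ 8 * 2 ^ n := by
            intro n hn
            induction n, hn using Nat.le_induction with
            | base => norm_num
            | succ n hn ih => rw [pow_succ]; omega
          exact h3 I hI
        rw [show (4 : ℝ) = 2 ^ 2 by norm_num, ← pow_add, ← pow_add]
        apply pow_le_pow_right₀ (by norm_num)
        omega
      have e4 : ((2 ^ (1300 * 2 ^ I) : ℕ) : ℝ) ≤ (k : ℝ) := by exact_mod_cast hk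
      push_cast at e4
      exact e3.trans e4
    have hk0 : (0 : ℝ) < k := by exact_mod_cast hk1
    have e6 := mul_le_mul_of_nonneg_left e1 hk0.le
    have e7 : (0 : ℝ) ≤ (k : ℝ) / 4 * (1 / 2) ^ (139 * I) := by positivity
    nlinarith
  set L : ℝ := (k : ℝ) / 4 * (1 / 2) ^ (139 * I) with hL
  have hL0 : 0 ≤ L := by rw [hL]; positivity
  -- first variable
  set W : Finset ℕ := (Ioc 0 k).filter (fun u : ℕ => ∀ p : ℕ, p.Prime → 7 ≤ p → ¬ p ∣ F.M →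
      p ≤ 2 ^ 2 ^ I → ¬ (p : ℤ) ∣ ((F.M * u + F.y0 : ℕ) : ℤ)) with hW
  have hWc : L ≤ (W.card : ℝ) := by
    refine hlow.trans ?_
    have := sieve_poly F.M F.y0 (fun t => (t : ℤ)) (fun p hp h7 hpM => ⟨Polynomial.X, by
      haveI : Fact p.Prime := ⟨hp⟩
      exact Polynomial.X_ne_zero, by
      haveI : Fact p.Prime := ⟨hp⟩
      rw [Polynomial.natDegree_X]; norm_num, fun t => by simp⟩) I (by omega) k
    refine this.trans (le_of_eq ?_)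
    rw [hW]
  set U : ℕ → Finset ℕ := fun w => (Ioc 0 k).filter (fun u : ℕ => ∀ p : ℕ, p.Prime → 7 ≤ p →
      ¬ p ∣ F.M → p ≤ 2 ^ 2 ^ I →
      ¬ (p : ℤ) ∣ F.g (F.M * w + F.y0) (F.M * u + (F.M * k + F.t0))) with hU
  have hUc : ∀ w, L ≤ ((U w).card : ℝ) := by
    intro w
    refine hlow.trans ?_
    have := sieve_poly F.M (F.M * k + F.t0) (F.g (F.M * w + F.y0)) (F.hg (F.M * w + F.y0)) I
      (by omega) k
    refine this.trans (le_of_eq ?_)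
    rw [hU]
  set G0 : Finset ((_ : ℕ) × ℕ) := W.sigma (fun w => U w) with hG0
  have hG0c : L ^ 2 ≤ (G0.card : ℝ) := by
    rw [hG0, card_sigma]
    push_cast
    calc L ^ 2 = L * L := pow_two L
      _ ≤ (W.card : ℝ) * L := mul_le_mul_of_nonneg_right hWc hL0
      _ = ∑ w ∈ W, L := by rw [sum_const, nsmul_eq_mul]
      _ ≤ ∑ w ∈ W, ((U w).card : ℝ) := sum_le_sum fun w _ => hUc w
  set mp : ((_ : ℕ) × ℕ) → ℕ × ℕ :=
    fun z => (F.M * z.1 + F.y0, F.M * z.2 + (F.M * k + F.t0)) with hmp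
  refine ⟨G0.image mp, ?_, ?_⟩
  · rw [card_image_of_injective]
    · exact hG0c
    · rintro ⟨w, u⟩ ⟨w', u'⟩ h
      rw [hmp] at h
      simp only [Prod.mk.injEq] at h
      have e1 : F.M * w = F.M * w' := by omega
      have e2 : F.M * u = F.M * u' := by omega
      have e3 := Nat.eq_of_mul_eq_mul_left hM e1
      have e4 := Nat.eq_of_mul_eq_mul_left hM e2
      subst e3 e4
      rfl
  · intro g hg
    rw [mem_image] at hg
    obtain ⟨⟨w, u⟩, hwu, rfl⟩ := hg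
    rw [hG0, mem_sigma] at hwu
    obtain ⟨hw, hu⟩ := hwu
    simp only [hW, hU, mem_filter, mem_Ioc] at hw hu
    have hMw : F.M * w ≤ F.M * k := Nat.mul_le_mul_left _ hw.1.2
    have hMu : F.M * u ≤ F.M * k := Nat.mul_le_mul_left _ hu.1.2
    have hMu0 : F.M * 1 ≤ F.M * u := Nat.mul_le_mul_left _ hu.1.1
    have hMw0 : F.M * 1 ≤ F.M * w := Nat.mul_le_mul_left _ hw.1.1
    have hy0M := F.hy0M
    have hMk : k ≤ F.M * k := Nat.le_mul_of_pos_left _ hM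
    have ht0k : F.t0 ≤ F.t0 * k := Nat.le_mul_of_pos_right _ hk1
    simp only [hmp]
    refine ⟨by simp, ?_, by omega, by omega, by omega, ?_, ?_, ?_⟩
    · rw [← add_assoc, ← Nat.mul_add]
      simp
    · calc F.M * u + (F.M * k + F.t0) ≤ F.M * k + (F.M * k + F.t0 * k) := by omega
        _ = (2 * F.M + F.t0) * k := by ring
    · intro p hp hpd
      by_contra hlt
      push Not at hlt
      by_cases hpM : p ∣ F.M
      · apply F.hy0 p hp hpM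
        exact (Nat.dvd_add_right (hpM.mul_right w)).1 hpd
      · have h7 : 7 ≤ p := by
          by_contra h
          exact hpM (F.hM7 p hp (by omega))
        exact hw.2 p hp h7 hpM hlt (by exact_mod_cast hpd)
    · intro p hp h7 hpM hpI
      exact hu.2 p hp h7 hpM hpI

end Pool.Agent.H328R3
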