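import Pool.Agent.H328R3.Main

set_option autoImplicit false

namespace Pool.Agent.H328R3

open Finset Polynomial

/-- the product of the six forms, as a function in a commutative ring -/
def PA {R : Type*} [CommRing R] (K y t : R) : R :=
  y * ((K * t - y) * (y * (K * t - y) - 2 * K) * (y * (K * t - y) + 2 * K) * (y * t + 2) *
    ((K * t - y) * t - 2))

lemma z5 : ∀ K : ZMod 5, ∃ y t : Fin 5, PA K ((y : ℕ) : ZMod 5) ((t : ℕ) : ZMod 5) ≠ 0 := by
  unfold PA
  decide

lemma localA (K : ℕ) (hK : 0 < K) : ∃ y0 t0 : ℕ, y0 < 5 * K ∧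
    ∀ p : ℕ, p.Prime → p ∣ 5 * K → PA (K : ZMod p) (y0 : ZMod p) (t0 : ZMod p) ≠ 0 := by
  have key : ∀ p : ℕ, p.Prime → p ∣ K → ∀ y0 t0 : ℕ, (y0 : ZMod p) = 1 → (t0 : ZMod p) = -1 →
      PA (K : ZMod p) (y0 : ZMod p) (t0 : ZMod p) ≠ 0 := by
    intro p hp hpK y0 t0 h1 h2
    have : Fact p.Prime := ⟨hp⟩
    have h3 : (K : ZMod p) = 0 := (ZMod.natCast_eq_zero_iff _ _).2 hpK
    rw [h1, h2, h3]
    have : PA (0 : ZMod p) 1 (-1) = 1 := by unfold PA; ring
    rw [this]
    exact one_ne_zero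
  by_cases h5 : 5 ∣ K
  · refine ⟨1, 5 * K - 1, by omega, ?_⟩
    intro p hp hpK
    have hpK' : p ∣ K := by
      rcases (Nat.Prime.dvd_mul hp).1 hpK with h | h
      · exact h.trans h5
      · exact h
    apply key p hp hpK'
    · simp
    · rw [Nat.cast_sub (by omega)]
      have : ((5 * K : ℕ) : ZMod p) = 0 := (ZMod.natCast_eq_zero_iff _ _).2 hpK
      rw [this]
      simp
  · obtain ⟨y5, t5, h⟩ := z5 (K : ZMod 5)
    have hco : Nat.Coprime 5 K := (Nat.Prime.coprime_iff_not_dvd (by norm_num)).2 h5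
    obtain ⟨y0, hy1, hy2⟩ := Nat.chineseRemainder hco (y5 : ℕ) 1
    obtain ⟨t0, ht1, ht2⟩ := Nat.chineseRemainder hco (t5 : ℕ) (K - 1)
    refine ⟨y0 % (5 * K), t0, Nat.mod_lt _ (by omega), ?_⟩
    intro p hp hpK
    have e0 : ((y0 % (5 * K) : ℕ) : ZMod p) = (y0 : ZMod p) := by
      rw [ZMod.natCast_eq_natCast_iff']
      exact Nat.mod_mod_of_dvd _ hpK
    rw [e0]
    by_cases hpK' : p ∣ K
    · apply key p hp hpK'
      · have := (ZMod.natCast_eq_natCast_iff' y0 1 p).2 (hy2.of_dvd hpK')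
        simpa using this
      · have h1 := (ZMod.natCast_eq_natCast_iff' t0 (K - 1) p).2 (ht2.of_dvd hpK')
        rw [h1, Nat.cast_sub (by omega)]
        have : ((K : ℕ) : ZMod p) = 0 := (ZMod.natCast_eq_zero_iff _ _).2 hpK'
        rw [this]
        simp
    · have hp5 : p = 5 := by
        rcases (Nat.Prime.dvd_mul hp).1 hpK with h | h
        · exact (Nat.prime_dvd_prime_iff_eq hp (by norm_num)).1 h
        · exact absurd h hpK'
      subst hp5
      rw [(ZMod.natCast_eq_natCast_iff' y0 y5 5).2 hy1, (ZMod.natCast_eq_natCast_iff' t0 t5 5).2 ht1]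
      exact h

lemma polyA {p : ℕ} (hp : p.Prime) (h7 : 7 ≤ p) (K y : ZMod p) (hK : K ≠ 0) :
    ∃ F : (ZMod p)[X], F ≠ 0 ∧ F.natDegree ≤ 6 ∧ ∀ t : ZMod p,
      (K * t - y) * (y * (K * t - y) - 2 * K) * (y * (K * t - y) + 2 * K) * (y * t + 2) *
        ((K * t - y) * t - 2) = F.eval t := by
  have : Fact p.Prime := ⟨hp⟩
  have h2 : (2 : ZMod p) ≠ 0 := by
    intro h
    have h3 : ((2 : ℕ) : ZMod p) = 0 := by exact_mod_cast h
    rw [ZMod.natCast_eq_zero_iff] at h3
    have := Nat.le_of_dvd (by norm_num) h3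
    omega
  refine ⟨(C K * X - C y) * (C y * (C K * X - C y) - C (2 * K)) *
    (C y * (C K * X - C y) + C (2 * K)) * (C y * X + C 2) * ((C K * X - C y) * X - C 2), ?_, ?_, ?_⟩
  · refine mul_ne_zero (mul_ne_zero (mul_ne_zero (mul_ne_zero ?_ ?_) ?_) ?_) ?_
    · intro h
      have e0 := congrArg (fun P => P.eval 0) h
      have e1 := congrArg (fun P => P.eval 1) h
      simp at e0 e1
      apply hK
      linear_combination e1 + e0
    · intro h
      have e0 := congrArg (fun P => P.eval 0) h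
      have e1 := congrArg (fun P => P.eval 1) h
      simp at e0 e1
      have e2 : y * K = 0 := by linear_combination e1 - e0
      rcases mul_eq_zero.1 e2 with h3 | h3
      · rw [h3] at e0
        have e4 : 2 * K = 0 := by linear_combination - e0
        exact (mul_ne_zero h2 hK) e4
      · exact hK h3
    · intro h
      have e0 := congrArg (fun P => P.eval 0) h
      have e1 := congrArg (fun P => P.eval 1) h
      simp at e0 e1
      have e2 : y * K = 0 := by linear_combination e1 - e0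
      rcases mul_eq_zero.1 e2 with h3 | h3
      · rw [h3] at e0
        have e4 : 2 * K = 0 := by linear_combination e0
        exact (mul_ne_zero h2 hK) e4
      · exact hK h3
    · intro h
      have e0 := congrArg (fun P => P.eval 0) h
      simp at e0
      exact h2 e0
    · intro h
      have e0 := congrArg (fun P => P.eval 0) h
      simp at e0
      exact h2 e0
  · compute_degree
  · intro t
    simp

/-- the family for the shift `n ↦ n + 4 K` -/
theorem famA (K : ℕ) (hK : 0 < K) (h6 : 6 ∣ K) : Nonempty (Fam (fun n => n + 4 * K)) := by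
  obtain ⟨y0, t0, hy0, hloc⟩ := localA K hK
  have hK6 : 6 ≤ K := Nat.le_of_dvd hK h6
  -- basic facts
  have basic : ∀ y t : ℕ, Dm (5 * K) y0 t0 (2 * K + 2) y t →
      (K * t - y) + y = K * t ∧ 5 * t ≤ K * t - y ∧ K * t - y ≤ K * t ∧ 2 * K + 2 ≤ y * (K * t - y) ∧
      2 ≤ (K * t - y) * t ∧ 0 < y ∧ y < t ∧ 2 * K + 2 ≤ t := by
    rintro y t ⟨-, -, h1, h2, h3⟩
    have e1 : 6 * t ≤ K * t := Nat.mul_le_mul_right _ hK6
    have e2 : (K * t - y) + y = K * t := by omega
    have e3 : 5 * t ≤ K * t - y := by omega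
    refine ⟨e2, e3, by omega, ?_, ?_, h1, h2, h3⟩
    · calc 2 * K + 2 ≤ 1 * (K * t - y) := by omega
        _ ≤ y * (K * t - y) := Nat.mul_le_mul_right _ h1
    · calc 2 ≤ (K * t - y) * 1 := by omega
        _ ≤ (K * t - y) * t := Nat.mul_le_mul_left _ (by omega)
  have castP : ∀ y t : ℕ, Dm (5 * K) y0 t0 (2 * K + 2) y t →
      (((y * (K * t - y) * (y * (K * t - y) - 2 * K) * (y * (K * t - y) + 2 * K) * (y * t + 2) *
        ((K * t - y) * t - 2) : ℕ)) : ℤ) = PA (K : ℤ) (y : ℤ) (t : ℤ) := by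
    intro y t h
    obtain ⟨e1, e2, e3, e4, e5, e6, e7, e8⟩ := basic y t h
    have c1 : ((K * t - y : ℕ) : ℤ) = (K : ℤ) * t - y := by
      rw [Nat.cast_sub (by omega)]
      push_cast
      ring
    rw [Nat.cast_mul, Nat.cast_mul, Nat.cast_mul, Nat.cast_mul, Nat.cast_mul,
      Nat.cast_sub (show 2 * K ≤ y * (K * t - y) by omega),
      Nat.cast_sub (show 2 ≤ (K * t - y) * t by omega)]
    push_cast [c1]
    unfold PA
    ring
  refine ⟨{
    M := 5 * K
    y0 := y0
    t0 := t0
    C1 := 3 * K ^ 2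
    T0 := 2 * K + 2
    hM := by omega
    hM7 := ?_
    hy0 := ?_
    hy0M := hy0
    s := fun y _ => y
    x := fun y t => K * t - y
    a := fun y t => y * (K * t - y) - 2 * K
    b := fun y t => y * (K * t - y) + 2 * K
    A := fun y t => y * t + 2
    B := fun y t => (K * t - y) * t - 2
    ψ := fun n => n + 2 * K
    g := fun y t => ((K : ℤ) * t - y) * (y * (K * t - y) - 2 * K) * (y * (K * t - y) + 2 * K) *
      (y * t + 2) * ((K * t - y) * t - 2)
    h1 := ?_
    h2 := ?_
    h3 := ?_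
    h4 := ?_
    hpos := ?_
    hbd := ?_
    hloc := ?_
    hpol := ?_
    hg := ?_
    hi1 := ?_
    hi2 := ?_
    hi3 := ?_ }⟩
  · intro p hp h7
    have h30 : 30 ∣ 5 * K := by omega
    have : p ∣ 30 := by
      have h2 := hp.two_le
      interval_cases p
      · norm_num
      · norm_num
      · exact absurd hp (by norm_num)
      · norm_num
      · exact absurd hp (by norm_num)
    exact this.trans h30
  · intro p hp hpM hd
    have h1 : (y0 : ZMod p) = 0 := (ZMod.natCast_eq_zero_iff _ _).2 hd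
    apply hloc p hp hpM
    unfold PA
    rw [h1]
    ring
  · intro y t h
    obtain ⟨e1, e2, e3, e4, e5, e6, e7, e8⟩ := basic y t h
    show y * (K * t - y) - 2 * K + 4 * K = y * (K * t - y) + 2 * K
    omega
  · intro y t h
    obtain ⟨e1, e2, e3, e4, e5, e6, e7, e8⟩ := basic y t h
    show (y * (K * t - y) - 2 * K) * (y * t + 2) + 4 * K = y ^ 2 * ((K * t - y) * t - 2)
    have c1 : ((K * t - y : ℕ) : ℤ) = (K : ℤ) * t - y := by
      rw [Nat.cast_sub (by omega)]
      push_cast
      ring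
    zify [show 2 * K ≤ y * (K * t - y) by omega, show 2 ≤ (K * t - y) * t by omega]
    rw [c1]
    ring
  · intro y t h
    obtain ⟨e1, e2, e3, e4, e5, e6, e7, e8⟩ := basic y t h
    show (y * (K * t - y) + 2 * K) * ((K * t - y) * t - 2) + 4 * K = (K * t - y) ^ 2 * (y * t + 2)
    have c1 : ((K * t - y : ℕ) : ℤ) = (K : ℤ) * t - y := by
      rw [Nat.cast_sub (by omega)]
      push_cast
      ring
    zify [show 2 * K ≤ y * (K * t - y) by omega, show 2 ≤ (K * t - y) * t by omega]
    rw [c1]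
    ring
  · intro y t h
    obtain ⟨e1, e2, e3, e4, e5, e6, e7, e8⟩ := basic y t h
    show y * (K * t - y) - 2 * K + 2 * K = y * (K * t - y)
    omega
  · intro y t h
    obtain ⟨e1, e2, e3, e4, e5, e6, e7, e8⟩ := basic y t h
    refine ⟨by omega, by omega, by omega, by omega, by omega, ?_⟩
    show (K * t - y) * t - 2 ≠ 0
    have : 3 ≤ (K * t - y) * t := by
      calc 3 ≤ (K * t - y) * 1 := by omega
        _ ≤ (K * t - y) * t := Nat.mul_le_mul_left _ (by omega)
    omega
  · intro y t h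
    obtain ⟨e1, e2, e3, e4, e5, e6, e7, e8⟩ := basic y t h
    have ht1 : 1 ≤ t := by omega
    have b1 : y * (K * t - y) ≤ K * t ^ 2 := by
      calc y * (K * t - y) ≤ t * (K * t) := Nat.mul_le_mul e7.le e3
        _ = K * t ^ 2 := by ring
    have b2 : y * t + 2 ≤ 3 * t ^ 2 := by
      have : y * t ≤ t * t := Nat.mul_le_mul_right _ e7.le
      nlinarith
    have b3 : y * (K * t - y) + 2 * K ≤ 3 * K * t ^ 2 := by nlinarith
    have b4 : (K * t - y) * t - 2 ≤ K * t ^ 2 := by
      have : (K * t - y) * t ≤ K * t * t := Nat.mul_le_mul_right _ e3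
      have h2 : K * t * t = K * t ^ 2 := by ring
      omega
    have b5 : K ≤ K ^ 2 := by nlinarith
    have t24 : t ^ 2 ≤ t ^ 4 := Nat.pow_le_pow_right ht1 (by norm_num)
    refine ⟨?_, ?_, ?_, ?_, ?_⟩
    · calc (y * (K * t - y) - 2 * K) * (y * t + 2) ≤ (K * t ^ 2) * (3 * t ^ 2) :=
            Nat.mul_le_mul (by omega) b2
        _ = 3 * K * t ^ 4 := by ring
        _ ≤ 3 * K ^ 2 * t ^ 4 := Nat.mul_le_mul_right _ (by omega)
    · calc (y * (K * t - y) + 2 * K) * ((K * t - y) * t - 2) ≤ (3 * K * t ^ 2) * (K * t ^ 2) :=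
            Nat.mul_le_mul b3 b4
        _ = 3 * K ^ 2 * t ^ 4 := by ring
    · calc y * (K * t - y) ≤ K * t ^ 2 := b1
        _ ≤ 3 * K ^ 2 * t ^ 4 := Nat.mul_le_mul (by omega) t24
    · calc y ^ 2 * ((K * t - y) * t - 2) ≤ t ^ 2 * (K * t ^ 2) :=
            Nat.mul_le_mul (Nat.pow_le_pow_left e7.le 2) b4
        _ = K * t ^ 4 := by ring
        _ ≤ 3 * K ^ 2 * t ^ 4 := Nat.mul_le_mul_right _ (by omega)
    · calc (K * t - y) ^ 2 * (y * t + 2) ≤ (K * t) ^ 2 * (3 * t ^ 2) :=
            Nat.mul_le_mul (Nat.pow_le_pow_left e3 2) b2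
        _ = 3 * K ^ 2 * t ^ 4 := by ring
  · intro y t h p hp hpM hd
    have hc := castP y t h
    have h2 : ((y * (K * t - y) * (y * (K * t - y) - 2 * K) * (y * (K * t - y) + 2 * K) *
        (y * t + 2) * ((K * t - y) * t - 2) : ℕ) : ZMod p) = 0 :=
      (ZMod.natCast_eq_zero_iff _ _).2 hd
    have h3 : (((y * (K * t - y) * (y * (K * t - y) - 2 * K) * (y * (K * t - y) + 2 * K) *
        (y * t + 2) * ((K * t - y) * t - 2) : ℕ) : ℤ) : ZMod p) = 0 := by
      rw [Int.cast_natCast]; exact h2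
    rw [hc] at h3
    apply hloc p hp hpM
    have ey : (y0 : ZMod p) = (y : ZMod p) := by
      rw [ZMod.natCast_eq_natCast_iff']
      have := congrArg (fun n => n % p) h.1
      simp only [Nat.mod_mod_of_dvd _ hpM] at this
      exact this.symm
    have et : (t0 : ZMod p) = (t : ZMod p) := by
      rw [ZMod.natCast_eq_natCast_iff']
      have := congrArg (fun n => n % p) h.2.1
      simp only [Nat.mod_mod_of_dvd _ hpM] at this
      exact this.symm
    rw [ey, et]
    unfold PA at h3 ⊢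
    push_cast at h3
    exact h3
  · intro y t h p hp h7 hpM hd
    have hc := castP y t h
    have h2 : (p : ℤ) ∣ PA (K : ℤ) (y : ℤ) (t : ℤ) := by
      rw [← hc]
      exact_mod_cast hd
    unfold PA at h2
    rcases (Nat.prime_iff_prime_int.1 hp).dvd_or_dvd h2 with h3 | h3
    · left; exact_mod_cast h3
    · right; exact h3
  · intro y p hp h7 hpM
    have hK' : (K : ZMod p) ≠ 0 := by
      intro h
      rw [ZMod.natCast_eq_zero_iff] at h
      exact hpM (h.mul_left 5)
    obtain ⟨F, hF0, hF1, hF2⟩ := polyA hp h7 (K : ZMod p) (y : ZMod p) hK'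
    refine ⟨F, hF0, hF1, fun t => ?_⟩
    rw [← hF2]
    push_cast
    ring
  · intro y t y' t' h h' ha hs
    obtain ⟨e1, e2, e3, e4, e5, e6, e7, e8⟩ := basic y t h
    obtain ⟨f1, f2, f3, f4, f5, f6, f7, f8⟩ := basic y' t' h'
    subst hs
    refine ⟨rfl, ?_⟩
    have h1 : y * (K * t - y) = y * (K * t' - y) := by omega
    have h2 := Nat.eq_of_mul_eq_mul_left e6 h1
    have h3 : K * t = K * t' := by omega
    exact Nat.eq_of_mul_eq_mul_left hK h3
  · intro y t y' t' h h' ha hs
    obtain ⟨e1, e2, e3, e4, e5, e6, e7, e8⟩ := basic y t h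
    obtain ⟨f1, f2, f3, f4, f5, f6, f7, f8⟩ := basic y' t' h'
    subst hs
    refine ⟨rfl, ?_⟩
    have mono : ∀ u v : ℕ, 2 * K + 2 ≤ y * (K * u - y) → u < v → y ≤ K * u →
        (y * (K * u - y) - 2 * K) * (y * u + 2) < (y * (K * v - y) - 2 * K) * (y * v + 2) := by
      intro u v hu huv hyu
      have g1 : K * u ≤ K * v := Nat.mul_le_mul_left _ huv.le
      have g2 : y * (K * u - y) ≤ y * (K * v - y) := Nat.mul_le_mul_left _ (by omega)
      have g3 : y * u < y * v := Nat.mul_lt_mul_of_pos_left huv e6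
      calc (y * (K * u - y) - 2 * K) * (y * u + 2) < (y * (K * u - y) - 2 * K) * (y * v + 2) :=
            Nat.mul_lt_mul_of_pos_left (by omega) (by omega)
        _ ≤ (y * (K * v - y) - 2 * K) * (y * v + 2) := Nat.mul_le_mul_right _ (by omega)
    rcases Nat.lt_trichotomy t t' with hlt | heq | hlt
    · exact absurd ha (mono t t' e4 hlt (by omega)).ne
    · exact heq
    · exact absurd ha.symm (mono t' t f4 hlt (by omega)).ne
  · intro y t y' t' h h' ha hs
    obtain ⟨e1, e2, e3, e4, e5, e6, e7, e8⟩ := basic y t h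
    obtain ⟨f1, f2, f3, f4, f5, f6, f7, f8⟩ := basic y' t' h'
    have mono : ∀ y t y' t' : ℕ, (K * t - y) + y = K * t → (K * t' - y') + y' = K * t' →
        K * t - y = K * t' - y' → 0 < K * t - y → 0 < y → 2 ≤ (K * t - y) * t → t < t' →
        (y * (K * t - y) + 2 * K) * ((K * t - y) * t - 2) <
          (y' * (K * t' - y') + 2 * K) * ((K * t' - y') * t' - 2) := by
      intro y t y' t' e1 f1 hs hx hy e5 hlt
      rw [← hs]
      have g1 : K * t < K * t' := Nat.mul_lt_mul_of_pos_left hlt hK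
      have g2 : y ≤ y' := by omega
      have g3 : (K * t - y) * t < (K * t - y) * t' := Nat.mul_lt_mul_of_pos_left hlt hx
      have g4 : y * (K * t - y) ≤ y' * (K * t - y) := Nat.mul_le_mul_right _ g2
      calc (y * (K * t - y) + 2 * K) * ((K * t - y) * t - 2)
          < (y * (K * t - y) + 2 * K) * ((K * t - y) * t' - 2) :=
            Nat.mul_lt_mul_of_pos_left (by omega) (by omega)
        _ ≤ (y' * (K * t - y) + 2 * K) * ((K * t - y) * t' - 2) :=
            Nat.mul_le_mul_right _ (by omega)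
    rcases Nat.lt_trichotomy t t' with hlt | heq | hlt
    · exact absurd ha (mono y t y' t' e1 f1 hs (by omega) e6 e5 hlt).ne
    · subst heq
      exact ⟨by omega, rfl⟩
    · exact absurd ha.symm (mono y' t' y t f1 e1 hs.symm (by omega) f6 f5 hlt).ne

end Pool.Agent.H328R3
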