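import Pool.Agent.H328R3.Fam

set_option autoImplicit false

namespace Pool.Agent.H328R3

open Finset Filter

theorem Fam.finite {φ : ℕ → ℕ} (F : Fam φ) (I k X : ℕ) (hI : 20 ≤ I)
    (hk : 2 ^ (1300 * 2 ^ I) ≤ k) (hk2 : k < 2 ^ (2600 * 2 ^ I))
    (hkT : F.T0 ≤ k) (hkC : F.C1 * (2 * F.M + F.t0) ^ 4 ≤ k)
    (hX : F.C1 * (2 * F.M + F.t0) ^ 4 * k ^ 4 ≤ X) (S : Set ℕ) :
    ((k : ℝ) / 4 * (1 / 2) ^ (139 * I)) ^ 2 ≤
      3 * 2 ^ 13000 * ((ES φ S (2 ^ 2 ^ I) X 26000).ncard : ℝ) := by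
  obtain ⟨G, hG1, hG2⟩ := F.many I k hI hk
  refine hG1.trans ?_
  have hk1 : 1 ≤ k := le_trans Nat.one_le_two_pow hk
  have hz1 : 1 < 2 ^ 2 ^ I := Nat.one_lt_two_pow (by positivity)
  have hdm : ∀ g ∈ G, Dm F.M F.y0 F.t0 F.T0 g.1 g.2 := by
    intro g hg
    obtain ⟨e1, e2, e3, e4, e5, e6, e7, e8⟩ := hG2 g hg
    exact ⟨e1, e2, e3, e4, hkT.trans e5⟩
  -- size bound
  have hsz : ∀ g ∈ G, F.C1 * g.2 ^ 4 ≤ X ∧ F.C1 * g.2 ^ 4 ≤ (2 ^ 2 ^ I) ^ 13000 := by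
    intro g hg
    obtain ⟨e1, e2, e3, e4, e5, e6, e7, e8⟩ := hG2 g hg
    have h1 : F.C1 * g.2 ^ 4 ≤ F.C1 * (2 * F.M + F.t0) ^ 4 * k ^ 4 := by
      calc F.C1 * g.2 ^ 4 ≤ F.C1 * ((2 * F.M + F.t0) * k) ^ 4 :=
            Nat.mul_le_mul_left _ (Nat.pow_le_pow_left e6 4)
        _ = F.C1 * (2 * F.M + F.t0) ^ 4 * k ^ 4 := by rw [mul_pow]; ring
    refine ⟨h1.trans hX, ?_⟩
    calc F.C1 * g.2 ^ 4 ≤ F.C1 * (2 * F.M + F.t0) ^ 4 * k ^ 4 := h1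
      _ ≤ k * k ^ 4 := Nat.mul_le_mul_right _ hkC
      _ = k ^ 5 := by ring
      _ ≤ (2 ^ (2600 * 2 ^ I)) ^ 5 := Nat.pow_le_pow_left hk2.le 5
      _ = (2 ^ 2 ^ I) ^ 13000 := by
          rw [← pow_mul, ← pow_mul]
          congr 1
          ring
  -- roughness
  have hR : ∀ g ∈ G, Rough (2 ^ 2 ^ I) (F.s g.1 g.2 * F.x g.1 g.2 * F.a g.1 g.2 * F.b g.1 g.2 *
      F.A g.1 g.2 * F.B g.1 g.2) := by
    intro g hg p hp hpd
    obtain ⟨e1, e2, e3, e4, e5, e6, e7, e8⟩ := hG2 g hg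
    by_contra hlt
    push Not at hlt
    by_cases hpM : p ∣ F.M
    · exact F.hloc _ _ (hdm g hg) p hp hpM hpd
    · have h7 : 7 ≤ p := by
        by_contra h
        exact hpM (F.hM7 p hp (by omega))
      rcases F.hpol _ _ (hdm g hg) p hp h7 hpM hpd with h | h
      · exact absurd (e7 p hp h) (by omega)
      · exact e8 p hp h7 hpM hlt h
  have sub : ∀ {z m n : ℕ}, Rough z n → m ∣ n → Rough z m := by
    intro z m n h hd p hp hpm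
    exact h p hp (hpm.trans hd)
  have hcard : G.card ≤ 3 * 2 ^ 13000 * (ES φ S (2 ^ 2 ^ I) X 26000).ncard := by
    have Rs : ∀ g ∈ G, Rough (2 ^ 2 ^ I) (F.s g.1 g.2) := fun g hg =>
      sub (hR g hg) ⟨F.x g.1 g.2 * F.a g.1 g.2 * F.b g.1 g.2 * F.A g.1 g.2 * F.B g.1 g.2, by ring⟩
    have Rx : ∀ g ∈ G, Rough (2 ^ 2 ^ I) (F.x g.1 g.2) := fun g hg =>
      sub (hR g hg) ⟨F.s g.1 g.2 * F.a g.1 g.2 * F.b g.1 g.2 * F.A g.1 g.2 * F.B g.1 g.2, by ring⟩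
    have Ra : ∀ g ∈ G, Rough (2 ^ 2 ^ I) (F.a g.1 g.2) := fun g hg =>
      sub (hR g hg) ⟨F.s g.1 g.2 * F.x g.1 g.2 * F.b g.1 g.2 * F.A g.1 g.2 * F.B g.1 g.2, by ring⟩
    have Rb : ∀ g ∈ G, Rough (2 ^ 2 ^ I) (F.b g.1 g.2) := fun g hg =>
      sub (hR g hg) ⟨F.s g.1 g.2 * F.x g.1 g.2 * F.a g.1 g.2 * F.A g.1 g.2 * F.B g.1 g.2, by ring⟩
    have RA : ∀ g ∈ G, Rough (2 ^ 2 ^ I) (F.A g.1 g.2) := fun g hg =>
      sub (hR g hg) ⟨F.s g.1 g.2 * F.x g.1 g.2 * F.a g.1 g.2 * F.b g.1 g.2 * F.B g.1 g.2, by ring⟩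
    have RB : ∀ g ∈ G, Rough (2 ^ 2 ^ I) (F.B g.1 g.2) := fun g hg =>
      sub (hR g hg) ⟨F.s g.1 g.2 * F.x g.1 g.2 * F.a g.1 g.2 * F.b g.1 g.2 * F.A g.1 g.2, by ring⟩
    have P : ∀ g ∈ G, F.s g.1 g.2 ≠ 0 ∧ F.x g.1 g.2 ≠ 0 ∧ 1 < F.a g.1 g.2 ∧ 1 < F.b g.1 g.2 ∧
        F.A g.1 g.2 ≠ 0 ∧ F.B g.1 g.2 ≠ 0 := fun g hg => F.hpos _ _ (hdm g hg)
    have Bd := fun g (hg : g ∈ G) => F.hbd _ _ (hdm g hg)
    have len : ∀ m : ℕ, m ≠ 0 → Rough (2 ^ 2 ^ I) m → m ≤ (2 ^ 2 ^ I) ^ 13000 →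
        m.primeFactorsList.length ≤ 13000 := fun m hm h hle => length_le hz1 hm h hle
    have dv : ∀ m : ℕ, m ≠ 0 → Rough (2 ^ 2 ^ I) m → m ≤ (2 ^ 2 ^ I) ^ 13000 →
        m.divisors.card ≤ 2 ^ 13000 := fun m hm h hle =>
      (card_divisors_le hm).trans (Nat.pow_le_pow_right (by norm_num) (len m hm h hle))
    have len2 : ∀ m n : ℕ, m ≠ 0 → n ≠ 0 → Rough (2 ^ 2 ^ I) m → Rough (2 ^ 2 ^ I) n →
        m ≤ (2 ^ 2 ^ I) ^ 13000 → n ≤ (2 ^ 2 ^ I) ^ 13000 →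
        (m * n).primeFactorsList.length ≤ 26000 := by
      intro m n hm hn h h' hle hle'
      apply length_le hz1 (mul_ne_zero hm hn) (h.mul h')
      calc m * n ≤ (2 ^ 2 ^ I) ^ 13000 * (2 ^ 2 ^ I) ^ 13000 := Nat.mul_le_mul hle hle'
        _ = (2 ^ 2 ^ I) ^ 26000 := by rw [← pow_add]
    apply count_le φ F.ψ G (fun g => F.s g.1 g.2) (fun g => F.x g.1 g.2) (fun g => F.a g.1 g.2)
      (fun g => F.b g.1 g.2) (fun g => F.A g.1 g.2) (fun g => F.B g.1 g.2)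
    · exact fun g hg => F.h1 _ _ (hdm g hg)
    · exact fun g hg => F.h2 _ _ (hdm g hg)
    · exact fun g hg => F.h3 _ _ (hdm g hg)
    · exact fun g hg => F.h4 _ _ (hdm g hg)
    · exact Rs
    · exact Rx
    · exact Ra
    · exact Rb
    · exact RA
    · exact RB
    · exact fun g hg => (P g hg).1
    · exact fun g hg => (P g hg).2.1
    · exact fun g hg => (P g hg).2.2.1
    · exact fun g hg => (P g hg).2.2.2.1
    · exact fun g hg => (P g hg).2.2.2.2.1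
    · exact fun g hg => (P g hg).2.2.2.2.2
    · exact fun g hg => (Bd g hg).1.trans (hsz g hg).1
    · exact fun g hg => (Bd g hg).2.1.trans (hsz g hg).1
    · exact fun g hg => dv _ (mul_ne_zero (P g hg).1 (P g hg).2.1) ((Rs g hg).mul (Rx g hg))
        ((Bd g hg).2.2.1.trans (hsz g hg).2)
    · exact fun g hg => dv _ (mul_ne_zero (pow_ne_zero 2 (P g hg).1) (P g hg).2.2.2.2.2)
        (((Rs g hg).pow 2).mul (RB g hg)) ((Bd g hg).2.2.2.1.trans (hsz g hg).2)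
    · exact fun g hg => dv _ (mul_ne_zero (pow_ne_zero 2 (P g hg).2.1) (P g hg).2.2.2.2.1)
        (((Rx g hg).pow 2).mul (RA g hg)) ((Bd g hg).2.2.2.2.trans (hsz g hg).2)
    · intro g hg
      have p := P g hg
      apply len2 _ _ (by omega) (by omega) (Ra g hg) (Rb g hg)
      · exact (Nat.le_mul_of_pos_right _ (Nat.pos_of_ne_zero p.2.2.2.2.1)).trans
          ((Bd g hg).1.trans (hsz g hg).2)
      · exact (Nat.le_mul_of_pos_right _ (Nat.pos_of_ne_zero p.2.2.2.2.2)).trans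
          ((Bd g hg).2.1.trans (hsz g hg).2)
    · intro g hg
      have p := P g hg
      apply len2 _ _ (mul_ne_zero (by omega) p.2.2.2.2.1)
        (mul_ne_zero (pow_ne_zero 2 p.1) p.2.2.2.2.2) ((Ra g hg).mul (RA g hg))
        (((Rs g hg).pow 2).mul (RB g hg)) ((Bd g hg).1.trans (hsz g hg).2)
        ((Bd g hg).2.2.2.1.trans (hsz g hg).2)
    · intro g hg
      have p := P g hg
      apply len2 _ _ (mul_ne_zero (by omega) p.2.2.2.2.2)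
        (mul_ne_zero (pow_ne_zero 2 p.2.1) p.2.2.2.2.1) ((Rb g hg).mul (RB g hg))
        (((Rx g hg).pow 2).mul (RA g hg)) ((Bd g hg).2.1.trans (hsz g hg).2)
        ((Bd g hg).2.2.2.2.trans (hsz g hg).2)
    · intro g hg g' hg' e1 e2
      obtain ⟨e3, e4⟩ := F.hi1 _ _ _ _ (hdm g hg) (hdm g' hg') e1 e2
      exact Prod.ext e3 e4
    · intro g hg g' hg' e1 e2
      obtain ⟨e3, e4⟩ := F.hi2 _ _ _ _ (hdm g hg) (hdm g' hg') e1 e2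
      exact Prod.ext e3 e4
    · intro g hg g' hg' e1 e2
      obtain ⟨e3, e4⟩ := F.hi3 _ _ _ _ (hdm g hg) (hdm g' hg') e1 e2
      exact Prod.ext e3 e4
  calc (G.card : ℝ) ≤ ((3 * 2 ^ 13000 * (ES φ S (2 ^ 2 ^ I) X 26000).ncard : ℕ) : ℝ) := by
        exact_mod_cast hcard
    _ = _ := by push_cast; ring

theorem Fam.main {φ : ℕ → ℕ} (F : Fam φ) : ∃ X₀ : ℕ, ∀ X : ℕ, X₀ ≤ X →
    ∀ S : Set ℕ, (X : ℝ) ^ (1 / 2 : ℝ) / (Real.log X) ^ 279 ≤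
      (({n : ℕ | 1 < n ∧ n ≤ X ∧
        (∀ p : ℕ, p.Prime → p ∣ n * φ n → (X : ℝ) ^ (1 / 13000 : ℝ) < p) ∧
        (n * φ n).primeFactorsList.length ≤ 26000 ∧
        Even (cn S (n * φ n))} : Set ℕ).ncard : ℝ) := by
  obtain ⟨I0, hI0⟩ : ∃ I0 : ℕ, 20 ≤ I0 := ⟨20, le_rfl⟩
  obtain ⟨C2, hC2⟩ : ∃ C2 : ℕ, C2 = F.C1 * (2 * F.M + F.t0) ^ 4 + 1 := ⟨_, rfl⟩
  obtain ⟨E0, hE0⟩ : ∃ E0 : ℕ, E0 = 2 ^ (1300 * 2 ^ I0) := ⟨_, rfl⟩
  obtain ⟨K1, hK1⟩ : ∃ K1 : ℕ, K1 = E0 + F.T0 + 16 * C2 := ⟨_, rfl⟩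
  obtain ⟨Q, hQ⟩ : ∃ Q : ℝ, Q = 3 * 2 ^ 13000 := ⟨_, rfl⟩
  have hQ0 : 0 < Q := by rw [hQ]; positivity
  have hev : ∀ᶠ X : ℕ in atTop, 64 * C2 * Q ≤ Real.log X :=
    (Real.tendsto_log_atTop.comp tendsto_natCast_atTop_atTop).eventually_ge_atTop _
  obtain ⟨X1, hX1⟩ := eventually_atTop.1 hev
  refine ⟨max X1 (C2 * K1 ^ 4), fun X hX S => ?_⟩
  have hXa : X1 ≤ X := le_trans (le_max_left _ _) hX
  have hXb : C2 * K1 ^ 4 ≤ X := le_trans (le_max_right _ _) hX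
  have hlog := hX1 X hXa
  have hC20 : 0 < C2 := by omega
  have hK10 : 0 < K1 := by omega
  set m : ℕ := X / C2 with hm
  set k : ℕ := Nat.sqrt (Nat.sqrt m) with hkdef
  have hmK : K1 ^ 4 ≤ m := by
    rw [hm, Nat.le_div_iff_mul_le hC20, mul_comm]
    exact hXb
  have hkK : K1 ≤ k := by
    rw [hkdef, Nat.le_sqrt', Nat.le_sqrt']
    calc (K1 ^ 2) ^ 2 = K1 ^ 4 := by ring
      _ ≤ m := hmK
  have hk4 : k ^ 4 ≤ m := by
    calc k ^ 4 = (k ^ 2) ^ 2 := by ring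
      _ ≤ (Nat.sqrt m) ^ 2 := Nat.pow_le_pow_left (Nat.sqrt_le' _) 2
      _ ≤ m := Nat.sqrt_le' _
  have hk1 : 1 ≤ k := by omega
  have hmX : C2 * m ≤ X := Nat.mul_div_le _ _
  have hXm : X < C2 * (m + 1) := Nat.lt_mul_div_succ X hC20
  have hm4 : m + 1 ≤ (k + 1) ^ 4 := by
    have e1 : Nat.sqrt m < (k + 1) ^ 2 := by
      have := Nat.lt_succ_sqrt' (Nat.sqrt m)
      rw [← hkdef] at this
      exact this
    have e2 : m < (Nat.sqrt m + 1) ^ 2 := Nat.lt_succ_sqrt' m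
    calc m + 1 ≤ (Nat.sqrt m + 1) ^ 2 := e2
      _ ≤ ((k + 1) ^ 2) ^ 2 := Nat.pow_le_pow_left e1 2
      _ = (k + 1) ^ 4 := by ring
  have hX16 : X ≤ 16 * C2 * k ^ 4 := by
    calc X ≤ C2 * (m + 1) := hXm.le
      _ ≤ C2 * (k + 1) ^ 4 := Nat.mul_le_mul_left _ hm4
      _ ≤ C2 * (2 * k) ^ 4 := Nat.mul_le_mul_left _ (Nat.pow_le_pow_left (by omega) 4)
      _ = 16 * C2 * k ^ 4 := by ring
  have hkI : 2 ^ (1300 * 2 ^ I0) ≤ k := by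
    rw [← hE0]
    omega
  have hkT : F.T0 ≤ k := by
    refine le_trans ?_ hkK
    rw [hK1]
    omega
  have hk16 : 16 * C2 ≤ k := by
    refine le_trans ?_ hkK
    rw [hK1]
    exact Nat.le_add_left _ _
  obtain ⟨I, hII, hI1, hI2⟩ := exists_level' 1300 (by norm_num) I0 k hkI
  have hfin := F.finite I k X (hI0.trans hII) hI1 hI2 hkT (by rw [hC2] at hk16; omega) (by
    calc F.C1 * (2 * F.M + F.t0) ^ 4 * k ^ 4 ≤ C2 * k ^ 4 := by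
          apply Nat.mul_le_mul_right; rw [hC2]; omega
      _ ≤ C2 * m := Nat.mul_le_mul_left _ hk4
      _ ≤ X := hmX) S
  rw [← hQ] at hfin
  have hkX : k ≤ X := by
    calc k = 1 * k ^ 1 := by ring
      _ ≤ C2 * k ^ 4 := Nat.mul_le_mul hC20 (Nat.pow_le_pow_right hk1 (by norm_num))
      _ ≤ C2 * m := Nat.mul_le_mul_left _ hk4
      _ ≤ X := hmX
  have hX0 : (0 : ℝ) < X := by exact_mod_cast (lt_of_lt_of_le hk1 hkX)
  -- sifting limit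
  have hz : (X : ℝ) ^ (1 / 13000 : ℝ) ≤ ((2 ^ 2 ^ I : ℕ) : ℝ) := by
    have e1 : X ≤ (2 ^ 2 ^ I) ^ 13000 := by
      calc X ≤ 16 * C2 * k ^ 4 := hX16
        _ ≤ k * k ^ 4 := Nat.mul_le_mul_right _ hk16
        _ = k ^ 5 := by ring
        _ ≤ (2 ^ (2 * 1300 * 2 ^ I)) ^ 5 := Nat.pow_le_pow_left hI2.le 5
        _ = (2 ^ 2 ^ I) ^ 13000 := by
            rw [← pow_mul, ← pow_mul]
            congr 1
            ring
    have e2 : (X : ℝ) ≤ (((2 ^ 2 ^ I : ℕ) : ℝ)) ^ (13000 : ℕ) := by exact_mod_cast e1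
    calc (X : ℝ) ^ (1 / 13000 : ℝ) ≤ ((((2 ^ 2 ^ I : ℕ) : ℝ)) ^ (13000 : ℕ)) ^ (1 / 13000 : ℝ) :=
          Real.rpow_le_rpow hX0.le e2 (by norm_num)
      _ = ((2 ^ 2 ^ I : ℕ) : ℝ) := by
          rw [← Real.rpow_natCast, ← Real.rpow_mul (by positivity)]
          norm_num
  -- the logarithm
  have hlogI : (2 : ℝ) ^ I ≤ Real.log X := by
    have e1 : ((2 ^ (1300 * 2 ^ I) : ℕ) : ℝ) ≤ (X : ℝ) := by exact_mod_cast hI1.trans hkX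
    have e2 := Real.log_le_log (by positivity) e1
    push_cast at e2
    rw [Real.log_pow] at e2
    push_cast at e2
    have e3 := Real.log_two_gt_d9
    have e4 : (0 : ℝ) < 2 ^ I := by positivity
    have e5 : (2 : ℝ) ^ I ≤ 1300 * 2 ^ I * Real.log 2 := by nlinarith
    exact e5.trans e2
  have hlog0 : 0 < Real.log X := lt_of_lt_of_le (by positivity) hlogI
  set N : ℝ := ((ES φ S (2 ^ 2 ^ I) X 26000).ncard : ℝ) with hN
  have hN0 : 0 ≤ N := Nat.cast_nonneg _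
  have h1 : (k : ℝ) ^ 2 ≤ 16 * Q * N * Real.log X ^ 278 := by
    have e1 : ((k : ℝ) / 4 * (1 / 2) ^ (139 * I)) ^ 2 = (k : ℝ) ^ 2 / 16 / ((2 : ℝ) ^ I) ^ 278 := by
      have e0 : ((1 / 2 : ℝ) ^ (139 * I)) ^ 2 = 1 / ((2 : ℝ) ^ I) ^ 278 := by
        rw [← pow_mul, ← pow_mul, one_div_pow]
        congr 2
        ring
      rw [mul_pow, div_pow, e0]
      ring
    rw [e1, div_le_iff₀ (by positivity), div_le_iff₀ (by norm_num)] at hfin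
    refine hfin.trans ?_
    have e2 : ((2 : ℝ) ^ I) ^ 278 ≤ Real.log X ^ 278 := pow_le_pow_left₀ (by positivity) hlogI 278
    have e3 : 0 ≤ Q * N := by positivity
    nlinarith [mul_le_mul_of_nonneg_left e2 e3]
  have h2 : (X : ℝ) ^ (1 / 2 : ℝ) ≤ 4 * C2 * (k : ℝ) ^ 2 := by
    have e1 : (X : ℝ) ≤ (4 * C2 * (k : ℝ) ^ 2) ^ 2 := by
      have e2 : (X : ℝ) ≤ 16 * C2 * (k : ℝ) ^ 4 := by exact_mod_cast hX16
      have e3 : (1 : ℝ) ≤ C2 := by exact_mod_cast hC20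
      refine e2.trans ?_
      have e4 : (0 : ℝ) ≤ (k : ℝ) ^ 4 := by positivity
      have e5 : (C2 : ℝ) ≤ (C2 : ℝ) ^ 2 := by nlinarith
      calc 16 * (C2 : ℝ) * (k : ℝ) ^ 4 ≤ 16 * (C2 : ℝ) ^ 2 * (k : ℝ) ^ 4 := by
            apply mul_le_mul_of_nonneg_right _ e4
            linarith
        _ = (4 * C2 * (k : ℝ) ^ 2) ^ 2 := by ring
    calc (X : ℝ) ^ (1 / 2 : ℝ) ≤ ((4 * C2 * (k : ℝ) ^ 2) ^ 2) ^ (1 / 2 : ℝ) :=
          Real.rpow_le_rpow hX0.le e1 (by norm_num)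
      _ = 4 * C2 * (k : ℝ) ^ 2 := by
          rw [← Real.rpow_natCast, ← Real.rpow_mul (by positivity)]
          norm_num
  have h3 : (X : ℝ) ^ (1 / 2 : ℝ) / (Real.log X) ^ 279 ≤ N := by
    rw [div_le_iff₀ (by positivity)]
    calc (X : ℝ) ^ (1 / 2 : ℝ) ≤ 4 * C2 * (k : ℝ) ^ 2 := h2
      _ ≤ 4 * C2 * (16 * Q * N * Real.log X ^ 278) :=
          mul_le_mul_of_nonneg_left h1 (by positivity)
      _ = (64 * C2 * Q) * (N * Real.log X ^ 278) := by ring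
      _ ≤ Real.log X * (N * Real.log X ^ 278) :=
          mul_le_mul_of_nonneg_right hlog (by positivity)
      _ = N * Real.log X ^ 279 := by ring
  refine h3.trans ?_
  rw [hN]
  have hsub : ES φ S (2 ^ 2 ^ I) X 26000 ⊆ {n : ℕ | 1 < n ∧ n ≤ X ∧
      (∀ p : ℕ, p.Prime → p ∣ n * φ n → (X : ℝ) ^ (1 / 13000 : ℝ) < p) ∧
        (n * φ n).primeFactorsList.length ≤ 26000 ∧ Even (cn S (n * φ n))} := by
    rintro n ⟨e1, e2, e3, e4, e5⟩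
    refine ⟨e1, e2, ?_, e4, e5⟩
    intro p hp hpd
    refine lt_of_le_of_lt hz ?_
    exact_mod_cast e3 p hp hpd
  exact_mod_cast Set.ncard_le_ncard hsub ((Set.finite_Iic X).subset fun _ hn => hn.2.1)

end Pool.Agent.H328R3
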