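import Pool.Agent.H328R3.S6

set_option autoImplicit false

namespace Pool.Agent.H328R3

open Finset Polynomial

lemma card_bad_le {p : ℕ} [Fact p.Prime] (F : (ZMod p)[X]) (hF : F ≠ 0) (m r : ZMod p)
    (hm : m ≠ 0) :
    ((range p).filter (fun u : ℕ => F.eval (m * (u : ZMod p) + r) = 0)).card ≤ F.natDegree := by
  classical
  refine le_trans ?_ (Polynomial.card_roots' F)
  refine le_trans ?_ (Multiset.toFinset_card_le F.roots)
  apply Finset.card_le_card_of_injOn (fun u : ℕ => m * (u : ZMod p) + r)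
  · intro u hu
    simp only [coe_filter, Set.mem_ofPred_eq] at hu
    simp only [Finset.mem_coe, Multiset.mem_toFinset]
    rw [Polynomial.mem_roots hF]
    exact hu.2
  · intro u hu v hv huv
    simp only [coe_filter, Set.mem_ofPred_eq, mem_range] at hu hv
    have h1 : m * (u : ZMod p) = m * (v : ZMod p) := by
      have : m * (u : ZMod p) + r = m * (v : ZMod p) + r := huv
      exact add_right_cancel this
    have h2 : (u : ZMod p) = (v : ZMod p) := mul_left_cancel₀ hm h1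
    rw [ZMod.natCast_eq_natCast_iff'] at h2
    rwa [Nat.mod_eq_of_lt hu.1, Nat.mod_eq_of_lt hv.1] at h2

open scoped Classical in
/-- sieve for a function which modulo each prime is a polynomial of degree at most six -/
theorem sieve_poly (M r : ℕ) (g : ℕ → ℤ)
    (hg : ∀ p : ℕ, p.Prime → 7 ≤ p → ¬ p ∣ M → ∃ F : (ZMod p)[X], F ≠ 0 ∧ F.natDegree ≤ 6 ∧
      ∀ t : ℕ, ((g t : ℤ) : ZMod p) = F.eval (t : ZMod p))
    (I : ℕ) (hI : 1 ≤ I) (k : ℕ) :
    (k : ℝ) * (Real.exp (-96) ^ I / 2) - (2 : ℝ) ^ (1292 * 2 ^ I)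
      ≤ (((Ioc 0 k).filter (fun u : ℕ => ∀ p : ℕ, p.Prime → 7 ≤ p → ¬ p ∣ M → p ≤ 2 ^ 2 ^ I →
        ¬ (p : ℤ) ∣ g (M * u + r))).card : ℝ) := by
  set S : Finset ℕ := (range (2 ^ 2 ^ I + 1)).filter (fun p => p.Prime ∧ 7 ≤ p ∧ ¬ p ∣ M) with hS
  set Ω : ℕ → Finset ℕ := fun p => (range p).filter (fun u : ℕ => (p : ℤ) ∣ g (M * u + r)) with hΩ
  have key := sieve6 (Ω := Ω) S (fun p hp => by rw [hS, mem_filter] at hp; exact hp.2.1)
    (fun p hp => by rw [hS, mem_filter] at hp; exact hp.2.2.1) (fun p _ => filter_subset _ _)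
    (fun p hp => by
      rw [hS, mem_filter] at hp
      obtain ⟨F, hF0, hF1, hF2⟩ := hg p hp.2.1 hp.2.2.1 hp.2.2.2
      haveI : Fact p.Prime := ⟨hp.2.1⟩
      refine le_trans ?_ ((card_bad_le F hF0 (M : ZMod p) (r : ZMod p) ?_).trans hF1)
      · apply card_le_card
        intro u hu
        rw [hΩ] at hu
        simp only [mem_filter] at hu ⊢
        refine ⟨hu.1, ?_⟩
        have h1 := hF2 (M * u + r)
        push_cast at h1
        rw [← h1]
        exact (ZMod.intCast_zmod_eq_zero_iff_dvd _ p).2 hu.2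
      · intro h
        rw [ZMod.natCast_eq_zero_iff] at h
        exact hp.2.2.2 h) I hI
    (fun p hp => by rw [hS, mem_filter, mem_range] at hp; omega) k
  refine key.trans ?_
  norm_cast
  apply card_le_card
  intro n hn
  simp only [mem_filter] at hn ⊢
  refine ⟨hn.1, fun p hp h7 hpM hpI hdvd => ?_⟩
  have hpS : p ∈ S := by
    rw [hS, mem_filter, mem_range]
    exact ⟨by omega, hp, h7, hpM⟩
  apply hn.2 p hpS
  rw [hΩ]
  simp only [mem_filter, mem_range]
  refine ⟨Nat.mod_lt _ hp.pos, ?_⟩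
  haveI : Fact p.Prime := ⟨hp⟩
  obtain ⟨F, hF0, hF1, hF2⟩ := hg p hp h7 hpM
  rw [← ZMod.intCast_zmod_eq_zero_iff_dvd] at hdvd ⊢
  rw [hF2] at hdvd ⊢
  rw [← hdvd]
  congr 1
  push_cast
  rw [ZMod.natCast_mod]

end Pool.Agent.H328R3
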