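import Pool.Agent.H328R3.Main

set_option autoImplicit false

namespace Pool.Agent.H328R3

open Finset Polynomial

/-- the product of the six forms, as a function in a commutative ring -/
def PB {R : Type*} [CommRing R] (c y t : R) : R :=
  y * ((c * t - 2 * y) * ((c * t - 2 * y) * y - c) * ((c * t - 2 * y) * y + c) *
    ((c * t - 2 * y) * t + 2) * (y * t - 1))

lemma z5B : ∀ c : ZMod 5, ∃ y t : Fin 5, PB c ((y : ℕ) : ZMod 5) ((t : ℕ) : ZMod 5) ≠ 0 := by
  unfold PB
  decide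

lemma localB1 (c : ℕ) (hc : 0 < c) (hodd : c % 2 = 1) : ∃ y1 t1 : ℕ,
    ∀ p : ℕ, p.Prime → p ∣ 5 * c → PB (c : ZMod p) (y1 : ZMod p) (t1 : ZMod p) ≠ 0 := by
  have key : ∀ p : ℕ, p.Prime → p ∣ c → ∀ y1 t1 : ℕ, (y1 : ZMod p) = 1 → (t1 : ZMod p) = -1 →
      PB (c : ZMod p) (y1 : ZMod p) (t1 : ZMod p) ≠ 0 := by
    intro p hp hpc y1 t1 h1 h2
    have : Fact p.Prime := ⟨hp⟩
    have h3 : (c : ZMod p) = 0 := (ZMod.natCast_eq_zero_iff _ _).2 hpc
    rw [h1, h2, h3]
    have e : PB (0 : ZMod p) 1 (-1) = ((64 : ℕ) : ZMod p) := by unfold PB; push_cast; ring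
    rw [e]
    intro h
    rw [ZMod.natCast_eq_zero_iff, show (64 : ℕ) = 2 ^ 6 by norm_num] at h
    have h4 := (Nat.prime_dvd_prime_iff_eq hp Nat.prime_two).1 (hp.dvd_of_dvd_pow h)
    subst h4
    omega
  by_cases h5 : 5 ∣ c
  · refine ⟨1, 5 * c - 1, ?_⟩
    intro p hp hpc
    have hpc' : p ∣ c := by
      rcases (Nat.Prime.dvd_mul hp).1 hpc with h | h
      · exact h.trans h5
      · exact h
    apply key p hp hpc'
    · simp
    · rw [Nat.cast_sub (by omega)]
      have : ((5 * c : ℕ) : ZMod p) = 0 := (ZMod.natCast_eq_zero_iff _ _).2 hpc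
      rw [this]
      simp
  · obtain ⟨y5, t5, h⟩ := z5B (c : ZMod 5)
    have hco : Nat.Coprime 5 c := (Nat.Prime.coprime_iff_not_dvd (by norm_num)).2 h5
    obtain ⟨y1, hy1, hy2⟩ := Nat.chineseRemainder hco (y5 : ℕ) 1
    obtain ⟨t1, ht1, ht2⟩ := Nat.chineseRemainder hco (t5 : ℕ) (c - 1)
    refine ⟨y1, t1, ?_⟩
    intro p hp hpc
    by_cases hpc' : p ∣ c
    · apply key p hp hpc'
      · have := (ZMod.natCast_eq_natCast_iff' y1 1 p).2 (hy2.of_dvd hpc')
        simpa using this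
      · have h1 := (ZMod.natCast_eq_natCast_iff' t1 (c - 1) p).2 (ht2.of_dvd hpc')
        rw [h1, Nat.cast_sub (by omega)]
        have : ((c : ℕ) : ZMod p) = 0 := (ZMod.natCast_eq_zero_iff _ _).2 hpc'
        rw [this]
        simp
    · have hp5 : p = 5 := by
        rcases (Nat.Prime.dvd_mul hp).1 hpc with h | h
        · exact (Nat.prime_dvd_prime_iff_eq hp (by norm_num)).1 h
        · exact absurd h hpc'
      subst hp5
      rw [(ZMod.natCast_eq_natCast_iff' y1 y5 5).2 hy1, (ZMod.natCast_eq_natCast_iff' t1 t5 5).2 ht1]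
      exact h

lemma localB (c : ℕ) (hc : 0 < c) (hodd : c % 2 = 1) : ∃ y0 t0 : ℕ, y0 < 80 * c ∧ y0 % 16 = 1 ∧
    t0 % 16 = (1 + 10 * c) % 16 ∧
    ∀ p : ℕ, p.Prime → p ∣ 5 * c → PB (c : ZMod p) (y0 : ZMod p) (t0 : ZMod p) ≠ 0 := by
  obtain ⟨y1, t1, h⟩ := localB1 c hc hodd
  have hco : Nat.Coprime 16 (5 * c) := by
    have h2 : Nat.Coprime 2 (5 * c) := by
      rw [Nat.Prime.coprime_iff_not_dvd Nat.prime_two]
      omega
    have := Nat.Coprime.pow_left 4 h2
    simpa using this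
  obtain ⟨y0, hy1, hy2⟩ := Nat.chineseRemainder hco 1 y1
  obtain ⟨t0, ht1, ht2⟩ := Nat.chineseRemainder hco (1 + 10 * c) t1
  refine ⟨y0 % (80 * c), t0, Nat.mod_lt _ (by omega), ?_, ht1, ?_⟩
  · rw [Nat.mod_mod_of_dvd _ (by omega)]
    exact hy1
  · intro p hp hpc
    have e0 : ((y0 % (80 * c) : ℕ) : ZMod p) = (y0 : ZMod p) := by
      rw [ZMod.natCast_eq_natCast_iff']
      exact Nat.mod_mod_of_dvd _ (hpc.trans ⟨16, by ring⟩)
    rw [e0, (ZMod.natCast_eq_natCast_iff' y0 y1 p).2 (hy2.of_dvd hpc),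
      (ZMod.natCast_eq_natCast_iff' t0 t1 p).2 (ht2.of_dvd hpc)]
    exact h p hp hpc

lemma polyB {p : ℕ} (hp : p.Prime) (h7 : 7 ≤ p) (c y : ZMod p) (hc : c ≠ 0) :
    ∃ F : (ZMod p)[X], F ≠ 0 ∧ F.natDegree ≤ 6 ∧ ∀ t : ZMod p,
      (c * t - 2 * y) * ((c * t - 2 * y) * y - c) * ((c * t - 2 * y) * y + c) *
        ((c * t - 2 * y) * t + 2) * (y * t - 1) = F.eval t := by
  have : Fact p.Prime := ⟨hp⟩
  have h2 : (2 : ZMod p) ≠ 0 := by
    intro h
    have h3 : ((2 : ℕ) : ZMod p) = 0 := by exact_mod_cast h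
    rw [ZMod.natCast_eq_zero_iff] at h3
    have := Nat.le_of_dvd (by norm_num) h3
    omega
  refine ⟨(C c * X - C (2 * y)) * ((C c * X - C (2 * y)) * C y - C c) *
    ((C c * X - C (2 * y)) * C y + C c) * ((C c * X - C (2 * y)) * X + C 2) * (C y * X - C 1),
    ?_, ?_, ?_⟩
  · refine mul_ne_zero (mul_ne_zero (mul_ne_zero (mul_ne_zero ?_ ?_) ?_) ?_) ?_
    · intro h
      have e0 : eval 0 (C c * X - C (2 * y)) = 0 := by rw [h, eval_zero]
      have e1 : eval 1 (C c * X - C (2 * y)) = 0 := by rw [h, eval_zero]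
      rw [eval_sub, eval_mul, eval_C, eval_C, eval_X] at e0 e1
      apply hc
      linear_combination e1 - e0
    · intro h
      have e0 : eval 0 ((C c * X - C (2 * y)) * C y - C c) = 0 := by rw [h, eval_zero]
      have e1 : eval 1 ((C c * X - C (2 * y)) * C y - C c) = 0 := by rw [h, eval_zero]
      rw [eval_sub, eval_mul, eval_sub, eval_mul, eval_C, eval_C, eval_C, eval_X] at e0 e1
      have e2 : c * y = 0 := by linear_combination e1 - e0
      rcases mul_eq_zero.1 e2 with h3 | h3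
      · exact hc h3
      · rw [h3] at e0
        apply hc
        linear_combination - e0
    · intro h
      have e0 : eval 0 ((C c * X - C (2 * y)) * C y + C c) = 0 := by rw [h, eval_zero]
      have e1 : eval 1 ((C c * X - C (2 * y)) * C y + C c) = 0 := by rw [h, eval_zero]
      rw [eval_add, eval_mul, eval_sub, eval_mul, eval_C, eval_C, eval_C, eval_X] at e0 e1
      have e2 : c * y = 0 := by linear_combination e1 - e0
      rcases mul_eq_zero.1 e2 with h3 | h3
      · exact hc h3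
      · rw [h3] at e0
        apply hc
        linear_combination e0
    · intro h
      have e0 : eval 0 ((C c * X - C (2 * y)) * X + C 2) = 0 := by rw [h, eval_zero]
      rw [eval_add, eval_mul, eval_sub, eval_mul, eval_C, eval_C, eval_C, eval_X] at e0
      apply h2
      linear_combination e0
    · intro h
      have e0 : eval 0 (C y * X - C 1) = 0 := by rw [h, eval_zero]
      rw [eval_sub, eval_mul, eval_C, eval_C, eval_X] at e0
      apply one_ne_zero (α := ZMod p)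
      linear_combination - e0
  · compute_degree
  · intro t
    simp only [eval_mul, eval_sub, eval_add, eval_C, eval_X]

/-- the family for the map `n ↦ 4 n + c` -/
theorem famB (c : ℕ) (hc : 0 < c) (hodd : c % 2 = 1) (h3 : 3 ∣ c) :
    Nonempty (Fam (fun n => 4 * n + c)) := by
  obtain ⟨y0, t0, hy0, hy16, ht16, hloc⟩ := localB c hc hodd
  have hc3 : 3 ≤ c := Nat.le_of_dvd hc h3
  -- exact divisions
  have basic : ∀ y t : ℕ, Dm (80 * c) y0 t0 (c + 17) y t →
      (c * t - 2 * y) + 2 * y = c * t ∧ t ≤ c * t - 2 * y ∧ 0 < y ∧ y < t ∧ c + 17 ≤ t ∧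
      8 * (((c * t - 2 * y) * y - c) / 8) + c = (c * t - 2 * y) * y ∧
      2 * (((c * t - 2 * y) * y + c) / 2) = (c * t - 2 * y) * y + c ∧
      2 * ((y * t - 1) / 2) + 1 = y * t ∧ t ≤ (c * t - 2 * y) * y ∧ t ≤ y * t ∧
      (c * t - 2 * y) % 2 = 1 ∧ y % 2 = 1 ∧ (((c * t - 2 * y) * y - c) / 8) % 2 = 1 ∧
      (((c * t - 2 * y) * y + c) / 2) % 2 = 1 ∧ ((c * t - 2 * y) * t + 2) % 2 = 1 ∧
      ((y * t - 1) / 2) % 2 = 1 := by
    rintro y t ⟨hy, ht, h1, h2, h3'⟩
    have e1 : 3 * t ≤ c * t := Nat.mul_le_mul_right _ hc3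
    have e2 : (c * t - 2 * y) + 2 * y = c * t := by omega
    have e3 : t ≤ c * t - 2 * y := by omega
    have y16 : y % 16 = 1 := by
      have := congrArg (fun n => n % 16) hy
      simp only [Nat.mod_mod_of_dvd _ (show 16 ∣ 80 * c by omega)] at this
      omega
    have t16 : t % 16 = (1 + 10 * c) % 16 := by
      have := congrArg (fun n => n % 16) ht
      simp only [Nat.mod_mod_of_dvd _ (show 16 ∣ 80 * c by omega)] at this
      omega
    obtain ⟨s, hs⟩ : ∃ s, s = c * t - 2 * y := ⟨_, rfl⟩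
    rw [← hs] at e2 e3 ⊢
    have e4 : t ≤ s * y := by
      calc t ≤ s * 1 := by omega
        _ ≤ s * y := Nat.mul_le_mul_left _ h1
    have e5 : t ≤ y * t := Nat.le_mul_of_pos_left _ h1
    have ct : (c * t) % 16 = ((c % 16) * ((1 + 10 * c) % 16)) % 16 := by
      rw [Nat.mul_mod, t16]
    have sy : (s * y) % 16 = s % 16 := by
      rw [Nat.mul_mod, y16]
      omega
    have yt : (y * t) % 16 = (1 + 10 * c) % 16 := by
      rw [Nat.mul_mod, y16, t16]
      omega
    have st : (s * t) % 2 = ((s % 2) * (t % 2)) % 2 := Nat.mul_mod _ _ _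
    obtain ⟨u, hu⟩ : ∃ u, u = s * y := ⟨_, rfl⟩
    obtain ⟨v, hv⟩ : ∃ v, v = y * t := ⟨_, rfl⟩
    obtain ⟨w, hw⟩ : ∃ w, w = c * t := ⟨_, rfl⟩
    obtain ⟨q, hq⟩ : ∃ q, q = s * t := ⟨_, rfl⟩
    rw [← hu] at e4 sy ⊢
    rw [← hv] at e5 yt ⊢
    rw [← hw] at e2 ct ⊢
    rw [← hq] at st ⊢
    have hs8 : s % 16 = (c + 8) % 16 := by
      have hcases : c % 16 = 1 ∨ c % 16 = 3 ∨ c % 16 = 5 ∨ c % 16 = 7 ∨ c % 16 = 9 ∨ c % 16 = 11 ∨
        c % 16 = 13 ∨ c % 16 = 15 := by omega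
      rcases hcases with h | h | h | h | h | h | h | h
      · have h' : (1 + 10 * c) % 16 = 11 := by omega
        rw [h, h'] at ct
        omega
      · have h' : (1 + 10 * c) % 16 = 15 := by omega
        rw [h, h'] at ct
        omega
      · have h' : (1 + 10 * c) % 16 = 3 := by omega
        rw [h, h'] at ct
        omega
      · have h' : (1 + 10 * c) % 16 = 7 := by omega
        rw [h, h'] at ct
        omega
      · have h' : (1 + 10 * c) % 16 = 11 := by omega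
        rw [h, h'] at ct
        omega
      · have h' : (1 + 10 * c) % 16 = 15 := by omega
        rw [h, h'] at ct
        omega
      · have h' : (1 + 10 * c) % 16 = 3 := by omega
        rw [h, h'] at ct
        omega
      · have h' : (1 + 10 * c) % 16 = 7 := by omega
        rw [h, h'] at ct
        omega
    have s2 : s % 2 = 1 := by omega
    have t2 : t % 2 = 1 := by omega
    rw [s2, t2] at st
    refine ⟨e2, e3, h1, h2, h3', ?_, ?_, ?_, e4, e5, s2, by omega, ?_, ?_, ?_, ?_⟩ <;> omega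
  refine ⟨{
    M := 80 * c
    y0 := y0
    t0 := t0
    C1 := 3 * c ^ 2
    T0 := c + 17
    hM := by omega
    hM7 := ?_
    hy0 := ?_
    hy0M := hy0
    s := fun y t => c * t - 2 * y
    x := fun y _ => y
    a := fun y t => ((c * t - 2 * y) * y - c) / 8
    b := fun y t => ((c * t - 2 * y) * y + c) / 2
    A := fun y t => (c * t - 2 * y) * t + 2
    B := fun y t => (y * t - 1) / 2
    ψ := fun n => 8 * n + c
    g := fun y t => ((c : ℤ) * t - 2 * y) * ((c * t - 2 * y) * y - c) * ((c * t - 2 * y) * y + c) *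
      ((c * t - 2 * y) * t + 2) * (y * t - 1)
    h1 := ?_
    h2 := ?_
    h3 := ?_
    h4 := ?_
    hpos := ?_
    hbd := ?_
    hloc := ?_
    hpol := ?_
    hg := ?_
    hi1 := ?_
    hi2 := ?_
    hi3 := ?_ }⟩
  · intro p hp h7
    have h30 : 30 ∣ 80 * c := by omega
    have : p ∣ 30 := by
      have h2 := hp.two_le
      interval_cases p
      · norm_num
      · norm_num
      · exact absurd hp (by norm_num)
      · norm_num
      · exact absurd hp (by norm_num)
    exact this.trans h30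
  · intro p hp hpM hd
    rcases Nat.Prime.eq_two_or_odd hp with h2 | h2
    · subst h2
      omega
    · have hp5 : p ∣ 5 * c := by
        have : 80 * c = 2 ^ 4 * (5 * c) := by ring
        rw [this] at hpM
        rcases (Nat.Prime.dvd_mul hp).1 hpM with h | h
        · have := (Nat.prime_dvd_prime_iff_eq hp Nat.prime_two).1 (hp.dvd_of_dvd_pow h)
          omega
        · exact h
      have h1 : (y0 : ZMod p) = 0 := (ZMod.natCast_eq_zero_iff _ _).2 hd
      apply hloc p hp hp5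
      unfold PB
      rw [h1]
      ring
  · intro y t h
    obtain ⟨e1, e2, e3, e4, e5, e6, e7, e8, -⟩ := basic y t h
    show 4 * (((c * t - 2 * y) * y - c) / 8) + c = ((c * t - 2 * y) * y + c) / 2
    omega
  · intro y t h
    obtain ⟨e1, e2, e3, e4, e5, e6, e7, e8, -⟩ := basic y t h
    show 4 * ((((c * t - 2 * y) * y - c) / 8) * ((c * t - 2 * y) * t + 2)) + c =
      (c * t - 2 * y) ^ 2 * ((y * t - 1) / 2)
    obtain ⟨a, ha⟩ : ∃ a, a = ((c * t - 2 * y) * y - c) / 8 := ⟨_, rfl⟩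
    obtain ⟨B, hB⟩ : ∃ B, B = (y * t - 1) / 2 := ⟨_, rfl⟩
    obtain ⟨s, hs⟩ : ∃ s, s = c * t - 2 * y := ⟨_, rfl⟩
    rw [← ha] at e6 ⊢
    rw [← hB] at e8 ⊢
    rw [← hs] at e1 e6 ⊢
    zify at e1 e6 e8 ⊢
    have : 2 * (4 * ((a : ℤ) * (s * t + 2)) + c - s ^ 2 * B) = 0 := by
      linear_combination (s * t + 2) * e6 - s ^ 2 * e8 + s * e1
    linarith
  · intro y t h
    obtain ⟨e1, e2, e3, e4, e5, e6, e7, e8, -⟩ := basic y t h
    show 4 * ((((c * t - 2 * y) * y + c) / 2) * ((y * t - 1) / 2)) + c =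
      y ^ 2 * ((c * t - 2 * y) * t + 2)
    obtain ⟨b, hb⟩ : ∃ b, b = ((c * t - 2 * y) * y + c) / 2 := ⟨_, rfl⟩
    obtain ⟨B, hB⟩ : ∃ B, B = (y * t - 1) / 2 := ⟨_, rfl⟩
    obtain ⟨s, hs⟩ : ∃ s, s = c * t - 2 * y := ⟨_, rfl⟩
    rw [← hb] at e7 ⊢
    rw [← hB] at e8 ⊢
    rw [← hs] at e1 e7 ⊢
    zify at e1 e7 e8 ⊢
    linear_combination (2 * (B : ℤ)) * e7 + (s * y + c) * e8 - y * e1
  · intro y t h
    obtain ⟨e1, e2, e3, e4, e5, e6, e7, e8, -⟩ := basic y t h
    exact e6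
  · intro y t h
    obtain ⟨e1, e2, e3, e4, e5, e6, e7, e8, e9, e10, -⟩ := basic y t h
    refine ⟨?_, ?_, ?_, ?_, ?_, ?_⟩
    · show c * t - 2 * y ≠ 0
      omega
    · show y ≠ 0
      omega
    · show 1 < ((c * t - 2 * y) * y - c) / 8
      omega
    · show 1 < ((c * t - 2 * y) * y + c) / 2
      omega
    · show (c * t - 2 * y) * t + 2 ≠ 0
      omega
    · show (y * t - 1) / 2 ≠ 0
      omega
  · intro y t h
    obtain ⟨e1, e2, e3, e4, e5, e6, e7, e8, e9, e10, -⟩ := basic y t h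
    have ht1 : 1 ≤ t := by omega
    obtain ⟨s, hs⟩ : ∃ s, s = c * t - 2 * y := ⟨_, rfl⟩
    rw [← hs] at e1 e2
    have b0 : s ≤ c * t := by omega
    have b1 : s * y ≤ c * t ^ 2 := by
      calc s * y ≤ (c * t) * t := Nat.mul_le_mul b0 e4.le
        _ = c * t ^ 2 := by ring
    have b2 : s * t + 2 ≤ 3 * c * t ^ 2 := by
      have h1 : s * t ≤ c * t * t := Nat.mul_le_mul_right _ b0
      nlinarith
    have b3 : (s * y + c) / 2 ≤ c * t ^ 2 := by
      have : c ≤ c * t ^ 2 := Nat.le_mul_of_pos_right _ (by positivity)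
      omega
    have b4 : (y * t - 1) / 2 ≤ t ^ 2 := by
      have : y * t ≤ t * t := Nat.mul_le_mul_right _ e4.le
      have h2 : t * t = t ^ 2 := by ring
      omega
    have b5 : c ≤ c ^ 2 := by nlinarith
    have t24 : t ^ 2 ≤ t ^ 4 := Nat.pow_le_pow_right ht1 (by norm_num)
    rw [← hs]
    show ((s * y - c) / 8) * (s * t + 2) ≤ 3 * c ^ 2 * t ^ 4 ∧
      ((s * y + c) / 2) * ((y * t - 1) / 2) ≤ 3 * c ^ 2 * t ^ 4 ∧ s * y ≤ 3 * c ^ 2 * t ^ 4 ∧
      s ^ 2 * ((y * t - 1) / 2) ≤ 3 * c ^ 2 * t ^ 4 ∧ y ^ 2 * (s * t + 2) ≤ 3 * c ^ 2 * t ^ 4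
    refine ⟨?_, ?_, ?_, ?_, ?_⟩
    · calc ((s * y - c) / 8) * (s * t + 2) ≤ (c * t ^ 2) * (3 * c * t ^ 2) :=
            Nat.mul_le_mul (by omega) b2
        _ = 3 * c ^ 2 * t ^ 4 := by ring
    · calc ((s * y + c) / 2) * ((y * t - 1) / 2) ≤ (c * t ^ 2) * (t ^ 2) := Nat.mul_le_mul b3 b4
        _ = c * t ^ 4 := by ring
        _ ≤ 3 * c ^ 2 * t ^ 4 := Nat.mul_le_mul_right _ (by omega)
    · calc s * y ≤ c * t ^ 2 := b1
        _ ≤ 3 * c ^ 2 * t ^ 4 := Nat.mul_le_mul (by omega) t24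
    · calc s ^ 2 * ((y * t - 1) / 2) ≤ (c * t) ^ 2 * t ^ 2 :=
            Nat.mul_le_mul (Nat.pow_le_pow_left b0 2) b4
        _ = c ^ 2 * t ^ 4 := by ring
        _ ≤ 3 * c ^ 2 * t ^ 4 := Nat.mul_le_mul_right _ (by omega)
    · calc y ^ 2 * (s * t + 2) ≤ t ^ 2 * (3 * c * t ^ 2) :=
            Nat.mul_le_mul (Nat.pow_le_pow_left e4.le 2) b2
        _ = 3 * c * t ^ 4 := by ring
        _ ≤ 3 * c ^ 2 * t ^ 4 := Nat.mul_le_mul_right _ (by omega)
  · intro y t h p hp hpM hd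
    obtain ⟨e1, e2, e3, e4, e5, e6, e7, e8, e9, e10, o1, o2, o3, o4, o5, o6⟩ := basic y t h
    have hd' : p ∣ (c * t - 2 * y) * y * (((c * t - 2 * y) * y - c) / 8) *
      (((c * t - 2 * y) * y + c) / 2) * ((c * t - 2 * y) * t + 2) * ((y * t - 1) / 2) := hd
    rcases Nat.Prime.eq_two_or_odd hp with h2 | h2
    · subst h2
      rw [Nat.Prime.dvd_mul Nat.prime_two, Nat.Prime.dvd_mul Nat.prime_two,
        Nat.Prime.dvd_mul Nat.prime_two, Nat.Prime.dvd_mul Nat.prime_two,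
        Nat.Prime.dvd_mul Nat.prime_two] at hd'
      rcases hd' with ((((h | h) | h) | h) | h) | h <;> omega
    · have hp5 : p ∣ 5 * c := by
        have : 80 * c = 2 ^ 4 * (5 * c) := by ring
        rw [this] at hpM
        rcases (Nat.Prime.dvd_mul hp).1 hpM with h | h
        · have := (Nat.prime_dvd_prime_iff_eq hp Nat.prime_two).1 (hp.dvd_of_dvd_pow h)
          omega
        · exact h
      apply hloc p hp hp5
      have ey : (y0 : ZMod p) = (y : ZMod p) := by
        rw [ZMod.natCast_eq_natCast_iff']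
        have := congrArg (fun n => n % p) h.1
        simp only [Nat.mod_mod_of_dvd _ hpM] at this
        exact this.symm
      have et : (t0 : ZMod p) = (t : ZMod p) := by
        rw [ZMod.natCast_eq_natCast_iff']
        have := congrArg (fun n => n % p) h.2.1
        simp only [Nat.mod_mod_of_dvd _ hpM] at this
        exact this.symm
      rw [ey, et]
      have h3 := (ZMod.natCast_eq_zero_iff _ p).2 hd'
      obtain ⟨a, ha⟩ : ∃ a, a = ((c * t - 2 * y) * y - c) / 8 := ⟨_, rfl⟩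
      obtain ⟨b, hb⟩ : ∃ b, b = ((c * t - 2 * y) * y + c) / 2 := ⟨_, rfl⟩
      obtain ⟨B, hB⟩ : ∃ B, B = (y * t - 1) / 2 := ⟨_, rfl⟩
      obtain ⟨s, hs⟩ : ∃ s, s = c * t - 2 * y := ⟨_, rfl⟩
      rw [← ha] at e6 h3
      rw [← hb] at e7 h3
      rw [← hB] at e8 h3
      rw [← hs] at e1 e6 e7 h3
      have z1 := congrArg (fun n : ℕ => (n : ZMod p)) e1
      have z6 := congrArg (fun n : ℕ => (n : ZMod p)) e6
      have z7 := congrArg (fun n : ℕ => (n : ZMod p)) e7
      have z8 := congrArg (fun n : ℕ => (n : ZMod p)) e8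
      push_cast at z1 z6 z7 z8 h3
      unfold PB
      have w1 : (c : ZMod p) * t - 2 * y = s := by linear_combination - z1
      have w2 : (s : ZMod p) * y - c = 8 * a := by linear_combination - z6
      have w3 : (s : ZMod p) * y + c = 2 * b := by linear_combination - z7
      have w4 : (y : ZMod p) * t - 1 = 2 * B := by linear_combination - z8
      rw [w1, w2, w3, w4]
      linear_combination 32 * h3
  · intro y t h p hp h7 hpM hd
    obtain ⟨e1, e2, e3, e4, e5, e6, e7, e8, e9, e10, o1, o2, o3, o4, o5, o6⟩ := basic y t h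
    have hd' : p ∣ (c * t - 2 * y) * y * (((c * t - 2 * y) * y - c) / 8) *
      (((c * t - 2 * y) * y + c) / 2) * ((c * t - 2 * y) * t + 2) * ((y * t - 1) / 2) := hd
    obtain ⟨a, ha⟩ : ∃ a, a = ((c * t - 2 * y) * y - c) / 8 := ⟨_, rfl⟩
    obtain ⟨b, hb⟩ : ∃ b, b = ((c * t - 2 * y) * y + c) / 2 := ⟨_, rfl⟩
    obtain ⟨B, hB⟩ : ∃ B, B = (y * t - 1) / 2 := ⟨_, rfl⟩
    obtain ⟨s, hs⟩ : ∃ s, s = c * t - 2 * y := ⟨_, rfl⟩
    rw [← ha] at e6 hd'
    rw [← hb] at e7 hd'
    rw [← hB] at e8 hd'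
    rw [← hs] at e1 e6 e7 hd'
    have z1 := congrArg (fun n : ℕ => (n : ℤ)) e1
    have z6 := congrArg (fun n : ℕ => (n : ℤ)) e6
    have z7 := congrArg (fun n : ℕ => (n : ℤ)) e7
    have z8 := congrArg (fun n : ℕ => (n : ℤ)) e8
    push_cast at z1 z6 z7 z8
    have hz : (p : ℤ) ∣ ((s * y * a * b * (s * t + 2) * B : ℕ) : ℤ) := by exact_mod_cast hd'
    push_cast at hz
    have w1 : (c : ℤ) * t - 2 * y = s := by linear_combination - z1
    have w2 : (s : ℤ) * y - c = 8 * a := by linear_combination - z6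
    have w3 : (s : ℤ) * y + c = 2 * b := by linear_combination - z7
    have w4 : (y : ℤ) * t - 1 = 2 * B := by linear_combination - z8
    have h2 : (p : ℤ) ∣ (y : ℤ) * (((c : ℤ) * t - 2 * y) * ((c * t - 2 * y) * y - c) *
        ((c * t - 2 * y) * y + c) * ((c * t - 2 * y) * t + 2) * (y * t - 1)) := by
      rw [w1, w2, w3, w4]
      have : (y : ℤ) * ((s : ℤ) * (8 * a) * (2 * b) * (s * t + 2) * (2 * B)) =
        32 * (s * y * a * b * (s * t + 2) * B) := by ring
      rw [this]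
      exact hz.mul_left 32
    rcases (Nat.prime_iff_prime_int.1 hp).dvd_or_dvd h2 with h3 | h3
    · left; exact_mod_cast h3
    · right; exact h3
  · intro y p hp h7 hpM
    have hc' : (c : ZMod p) ≠ 0 := by
      intro h
      rw [ZMod.natCast_eq_zero_iff] at h
      exact hpM (h.mul_left 80)
    obtain ⟨F, hF0, hF1, hF2⟩ := polyB hp h7 (c : ZMod p) (y : ZMod p) hc'
    refine ⟨F, hF0, hF1, fun t => ?_⟩
    rw [← hF2]
    push_cast
    ring
  · intro y t y' t' h h' ha hs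
    obtain ⟨e1, e2, e3, e4, e5, e6, e7, e8, -⟩ := basic y t h
    obtain ⟨f1, f2, f3, f4, f5, f6, f7, f8, -⟩ := basic y' t' h'
    have ha' : ((c * t - 2 * y) * y - c) / 8 = ((c * t' - 2 * y') * y' - c) / 8 := ha
    have hs' : c * t - 2 * y = c * t' - 2 * y' := hs
    rw [← hs'] at ha' f6 f1
    have h1 : (c * t - 2 * y) * y = (c * t - 2 * y) * y' := by omega
    have h2 : y = y' := Nat.eq_of_mul_eq_mul_left (by omega) h1
    refine ⟨h2, ?_⟩
    have h3 : c * t = c * t' := by omega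
    exact Nat.eq_of_mul_eq_mul_left hc h3
  · intro y t y' t' h h' ha hs
    obtain ⟨e1, e2, e3, e4, e5, e6, e7, e8, e9, -⟩ := basic y t h
    obtain ⟨f1, f2, f3, f4, f5, f6, f7, f8, f9, -⟩ := basic y' t' h'
    have ha' : ((c * t - 2 * y) * y - c) / 8 * ((c * t - 2 * y) * t + 2) =
      ((c * t' - 2 * y') * y' - c) / 8 * ((c * t' - 2 * y') * t' + 2) := ha
    have hs' : c * t - 2 * y = c * t' - 2 * y' := hs
    rw [← hs'] at ha' f1 f2 f6 f9
    obtain ⟨s, hss⟩ : ∃ s, s = c * t - 2 * y := ⟨_, rfl⟩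
    rw [← hss] at e1 f1 e9 f9 ha'
    have mono : ∀ y t y' t' : ℕ, s + 2 * y = c * t → s + 2 * y' = c * t' → c + 17 ≤ s * y →
        t < t' → (s * y - c) / 8 * (s * t + 2) < (s * y' - c) / 8 * (s * t' + 2) := by
      intro y t y' t' e1 f1 h17 hlt
      have g1 : c * t < c * t' := Nat.mul_lt_mul_of_pos_left hlt hc
      have g2 : y ≤ y' := by omega
      have g3 : s * y ≤ s * y' := Nat.mul_le_mul_left _ g2
      have g4 : s * t < s * t' := by
        apply Nat.mul_lt_mul_of_pos_left hlt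
        rcases Nat.eq_zero_or_pos s with h0 | h0
        · rw [h0] at h17; omega
        · exact h0
      calc (s * y - c) / 8 * (s * t + 2) < (s * y - c) / 8 * (s * t' + 2) :=
            Nat.mul_lt_mul_of_pos_left (by omega) (by omega)
        _ ≤ (s * y' - c) / 8 * (s * t' + 2) := Nat.mul_le_mul_right _ (by omega)
    rcases Nat.lt_trichotomy t t' with hlt | heq | hlt
    · exact absurd ha' (mono y t y' t' e1 f1 (by omega) hlt).ne
    · subst heq
      exact ⟨by omega, rfl⟩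
    · exact absurd ha'.symm (mono y' t' y t f1 e1 (by omega) hlt).ne
  · intro y t y' t' h h' ha hs
    obtain ⟨e1, e2, e3, e4, e5, e6, e7, e8, e9, e10, -⟩ := basic y t h
    obtain ⟨f1, f2, f3, f4, f5, f6, f7, f8, f9, f10, -⟩ := basic y' t' h'
    have hs' : y = y' := hs
    subst hs'
    have ha' : ((c * t - 2 * y) * y + c) / 2 * ((y * t - 1) / 2) =
      ((c * t' - 2 * y) * y + c) / 2 * ((y * t' - 1) / 2) := ha
    refine ⟨rfl, ?_⟩
    have mono : ∀ t t' : ℕ, (c * t - 2 * y) + 2 * y = c * t → (c * t' - 2 * y) + 2 * y = c * t' →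
        2 * (((c * t - 2 * y) * y + c) / 2) = (c * t - 2 * y) * y + c →
        2 * (((c * t' - 2 * y) * y + c) / 2) = (c * t' - 2 * y) * y + c →
        c + 17 ≤ y * t → t < t' →
        ((c * t - 2 * y) * y + c) / 2 * ((y * t - 1) / 2) <
          ((c * t' - 2 * y) * y + c) / 2 * ((y * t' - 1) / 2) := by
      intro t t' e1 f1 e7 f7 h17 hlt
      have g1 : c * t < c * t' := Nat.mul_lt_mul_of_pos_left hlt hc
      have g2 : c * t - 2 * y < c * t' - 2 * y := by omega
      have g3 : (c * t - 2 * y) * y < (c * t' - 2 * y) * y := Nat.mul_lt_mul_of_pos_right g2 e3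
      have g4 : y * t ≤ y * t' := Nat.mul_le_mul_left _ hlt.le
      calc ((c * t - 2 * y) * y + c) / 2 * ((y * t - 1) / 2)
          < ((c * t' - 2 * y) * y + c) / 2 * ((y * t - 1) / 2) :=
            Nat.mul_lt_mul_of_pos_right (by omega) (by omega)
        _ ≤ ((c * t' - 2 * y) * y + c) / 2 * ((y * t' - 1) / 2) :=
            Nat.mul_le_mul_left _ (by omega)
    rcases Nat.lt_trichotomy t t' with hlt | heq | hlt
    · exact absurd ha' (mono t t' e1 f1 e7 f7 (by omega) hlt).ne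
    · exact heq
    · exact absurd ha'.symm (mono t' t f1 e1 f7 e7 (by omega) hlt).ne

end Pool.Agent.H328R3
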