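import Pool.Agent.H505R2.SieveA

/-!
Brun-Hooley lower bound sieve with at most six excluded classes for each prime `p ≥ 7`
(adapted from `Pool/Agent/H505R2/SieveA.lean`).
-/

set_option autoImplicit false

namespace Pool.Agent.H328R3

open Finset Pool.Agent.Helper742 Pool.Agent.H446R2 Pool.Agent.H505R2

variable {Ω : ℕ → Finset ℕ}

/-- `1 - x ≥ exp (-4x)` on `[0, 6/7]`. -/
lemma one_sub_ge6 {x : ℝ} (hx0 : 0 ≤ x) (hx : x ≤ 6 / 7) : Real.exp (-(4 * x)) ≤ 1 - x := by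
  have h1 : 1 + 4 * x + (4 * x) ^ 2 / 2 ≤ Real.exp (4 * x) :=
    Real.quadratic_le_exp_of_nonneg (by linarith)
  rw [Real.exp_neg]
  have hpos : 0 < 1 + 4 * x + (4 * x) ^ 2 / 2 := by positivity
  have h2 : (Real.exp (4 * x))⁻¹ ≤ (1 + 4 * x + (4 * x) ^ 2 / 2)⁻¹ := inv_anti₀ hpos h1
  refine h2.trans ?_
  rw [inv_le_iff_one_le_mul₀ hpos]
  have h3 : 0 ≤ x * (3 + 4 * x - 8 * x ^ 2) := by
    apply mul_nonneg hx0
    nlinarith
  nlinarith

lemma dd_le_dn6 {p : ℕ} (hκ : (Ω p).card ≤ 6) : dd Ω p ≤ 6 * dn p := by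
  unfold dd dn
  rw [mul_one_div]
  apply div_le_div_of_nonneg_right _ (Nat.cast_nonneg p)
  exact_mod_cast hκ

lemma dd_le6 {p : ℕ} (hp7 : 7 ≤ p) (hκ : (Ω p).card ≤ 6) : dd Ω p ≤ 6 / 7 := by
  unfold dd
  have h1 : (7 : ℝ) ≤ p := by exact_mod_cast hp7
  have h2 : ((Ω p).card : ℝ) ≤ 6 := by exact_mod_cast hκ
  rw [div_le_div_iff₀ (by linarith) (by norm_num)]
  nlinarith

lemma yb_dd_ge6 {T : Finset ℕ} (h7 : ∀ p ∈ T, 7 ≤ p) (hκ : ∀ p ∈ T, (Ω p).card ≤ 6) (r : ℕ)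
    (hr : Odd r) : Real.exp (-(4 * ∑ p ∈ T, dd Ω p)) ≤ yb T r (dd Ω) := by
  refine le_trans ?_ (yb_ge T r hr (dd Ω) (fun p _ => dd_nonneg p)
    (fun p hp => by linarith [dd_le6 (Ω := Ω) (h7 p hp) (hκ p hp)]))
  rw [mul_sum, ← sum_neg_distrib, Real.exp_sum]
  apply prod_le_prod
  · intro p _; positivity
  · intro p hp
    exact one_sub_ge6 (dd_nonneg p) (dd_le6 (h7 p hp) (hκ p hp))

lemma Nk_le6 (T : Finset ℕ) (r Y : ℕ) (hY : 4 ≤ Y) (hT : ∀ p ∈ T, 1 ≤ p ∧ p ≤ Y) :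
    Nk 6 T r ≤ (Y : ℝ) ^ (3 * r + 1) := by
  have h1 := Nc_le T r Y hY hT
  have hY' : (4 : ℝ) ≤ Y := by exact_mod_cast hY
  have h2 : Nk 6 T r ≤ ((Y : ℝ) ^ 2) ^ r * Nc T r := by
    unfold Nk Nc
    rw [mul_add]
    have key : ∀ A : Finset ℕ, A.card ≤ r → ((6 : ℕ) : ℝ) ^ A.card ≤ ((Y : ℝ) ^ 2) ^ r := by
      intro A hA
      calc ((6 : ℕ) : ℝ) ^ A.card ≤ ((Y : ℝ) ^ 2) ^ A.card := by
            apply pow_le_pow_left₀ (by norm_num)
            push_cast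
            nlinarith
        _ ≤ ((Y : ℝ) ^ 2) ^ r := pow_le_pow_right₀ (by nlinarith) hA
    apply add_le_add
    · rw [mul_comm, ← nsmul_eq_mul]
      apply sum_le_card_nsmul
      intro A hA
      exact key A (mem_filter.1 hA).2.le
    · rw [mul_comm, ← nsmul_eq_mul]
      apply sum_le_card_nsmul
      intro A hA
      exact key A (mem_filter.1 hA).2.le
  calc Nk 6 T r ≤ ((Y : ℝ) ^ 2) ^ r * Nc T r := h2
    _ ≤ ((Y : ℝ) ^ 2) ^ r * (Y : ℝ) ^ (r + 1) := mul_le_mul_of_nonneg_left h1 (by positivity)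
    _ = (Y : ℝ) ^ (3 * r + 1) := by rw [← pow_mul, ← pow_add]; congr 1; ring

/-- truncation levels -/
def rb (I i : ℕ) : ℕ := 213 + 2 * (I - 1 - i)

lemma rb_odd (I i : ℕ) : Odd (rb I i) := by
  refine ⟨106 + (I - 1 - i), ?_⟩
  unfold rb
  ring

lemma exponent_sumB (I : ℕ) : ∑ i ∈ range I, 2 ^ (i + 1) * (3 * rb I i + 1) + 12 * I + 1292
    = 1292 * 2 ^ I := by
  induction I with
  | zero => simp
  | succ I ih =>
    rw [sum_range_succ']
    have h1 : ∑ i ∈ range I, 2 ^ (i + 1 + 1) * (3 * rb (I + 1) (i + 1) + 1)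
        = 2 * ∑ i ∈ range I, 2 ^ (i + 1) * (3 * rb I i + 1) := by
      rw [mul_sum]
      apply sum_congr rfl
      intro i _
      have : rb (I + 1) (i + 1) = rb I i := by unfold rb; omega
      rw [this, pow_succ 2 (i + 1)]
      ring
    rw [h1, pow_succ]
    have h2 : rb (I + 1) 0 = 213 + 2 * I := by unfold rb; omega
    rw [h2]
    omega

lemma geom_sum_boundB (I : ℕ) : ∑ i ∈ range I, (1 / 2 : ℝ) ^ (rb I i) ≤ 1 / 2 ^ 211 := by
  have h : ∀ I : ℕ, ∑ i ∈ range I, (1 / 2 : ℝ) ^ (rb I i)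
      ≤ 1 / 2 ^ 211 - 1 / 2 ^ (211 + 2 * I) := by
    intro I
    induction I with
    | zero => simp
    | succ I ih =>
      rw [sum_range_succ']
      have h1 : ∀ i ∈ range I, (1 / 2 : ℝ) ^ (rb (I + 1) (i + 1)) = (1 / 2 : ℝ) ^ (rb I i) := by
        intro i _
        have : rb (I + 1) (i + 1) = rb I i := by unfold rb; omega
        rw [this]
      rw [sum_congr rfl h1]
      have h2 : rb (I + 1) 0 = 213 + 2 * I := by unfold rb; omega
      rw [h2]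
      have h3 : (1 / 2 : ℝ) ^ (213 + 2 * I) = 1 / 2 ^ (211 + 2 * I) * (1 / 4) := by
        rw [one_div_pow, show 213 + 2 * I = (211 + 2 * I) + 2 by ring, pow_add]
        field_simp
        norm_num
      have h4 : (1 : ℝ) / 2 ^ (211 + 2 * (I + 1)) = 1 / 2 ^ (211 + 2 * I) * (1 / 4) := by
        rw [show 211 + 2 * (I + 1) = (211 + 2 * I) + 2 by ring, pow_add]
        field_simp
        norm_num
      have h5 : (0 : ℝ) < 1 / 2 ^ (211 + 2 * I) := by positivity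
      rw [h3, h4]
      linarith
  have h1 := h I
  have h2 : (0 : ℝ) < 1 / 2 ^ (211 + 2 * I) := by positivity
  linarith

lemma exp144 : Real.exp 144 ≤ 2 ^ 208 := by
  have h5 : Real.exp 144 = Real.exp 1 ^ 144 := by
    rw [← Real.exp_nat_mul]; norm_num
  rw [h5]
  have h6 := Real.exp_one_lt_d9
  calc Real.exp 1 ^ 144 ≤ 2.7183 ^ 144 := pow_le_pow_left₀ (Real.exp_pos 1).le (by linarith) 144
    _ ≤ 2 ^ 208 := by norm_num

/-- Lower bound sieve with at most six excluded classes for each prime `p ≥ 7`, and level a fixed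
power of the sifting limit. -/
theorem sieve6 (S : Finset ℕ) (hS : ∀ p ∈ S, p.Prime) (h7 : ∀ p ∈ S, 7 ≤ p)
    (hΩ : ∀ p ∈ S, Ω p ⊆ range p) (hκ : ∀ p ∈ S, (Ω p).card ≤ 6) (I : ℕ) (hI : 1 ≤ I)
    (hSY : ∀ p ∈ S, p ≤ 2 ^ 2 ^ I) (k : ℕ) :
    (k : ℝ) * (Real.exp (-96) ^ I / 2) - (2 : ℝ) ^ (1292 * 2 ^ I)
      ≤ (((Ioc 0 k).filter (fun n => ∀ p ∈ S, n % p ∉ Ω p)).card : ℝ) := by
  have hTS : ∀ i, TT S i ⊆ S := fun i => filter_subset _ _
  have hTp : ∀ i, ∀ p ∈ TT S i, p.Prime := fun i p hp => hS p (hTS i hp)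
  have hT7 : ∀ i, ∀ p ∈ TT S i, 7 ≤ p := fun i p hp => h7 p (hTS i hp)
  have hTΩ : ∀ i, ∀ p ∈ TT S i, Ω p ⊆ range p := fun i p hp => hΩ p (hTS i hp)
  have hTκ : ∀ i, ∀ p ∈ TT S i, (Ω p).card ≤ 6 := fun i p hp => hκ p (hTS i hp)
  have hsum : ∀ i, ∑ p ∈ TT S i, dd Ω p ≤ 24 := by
    intro i
    calc ∑ p ∈ TT S i, dd Ω p ≤ ∑ p ∈ TT S i, 6 * dn p :=
          sum_le_sum fun p hp => dd_le_dn6 (hTκ i p hp)
      _ = 6 * ∑ p ∈ TT S i, dn p := by rw [mul_sum]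
      _ ≤ 6 * 4 := mul_le_mul_of_nonneg_left (TT_sum S hS i) (by norm_num)
      _ = 24 := by norm_num
  have hVge : ∀ i, Real.exp (-96) ≤ yb (TT S i) (rb I i) (dd Ω) := by
    intro i
    refine le_trans ?_ (yb_dd_ge6 (hT7 i) (hTκ i) (rb I i) (rb_odd I i))
    apply Real.exp_le_exp.2
    linarith [hsum i]
  have hVpos : ∀ i, 0 < yb (TT S i) (rb I i) (dd Ω) := fun i => (Real.exp_pos _).trans_le (hVge i)
  obtain ⟨U, L, hU, hL, hUL⟩ := blocksA (TT S) (rb I) hTp hTΩ 6 hTκ (TT_disj S) (rb_odd I) hVpos I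
  have h1 := hL.sum_bound k
  have h2 := (abs_le.1 h1).1
  -- the indicator
  have h3 : ∀ n, L n ≤ if ∀ p ∈ S, n % p ∉ Ω p then (1 : ℝ) else 0 := by
    intro n
    refine (hUL n).1.trans ?_
    by_cases h : ∀ p ∈ S, n % p ∉ Ω p
    · rw [if_pos h]
      apply Finset.prod_le_one
      · intro i _
        exact prod_nonneg fun p _ => by linarith [uo_le_one (Ω := Ω) n p]
      · intro i _
        apply Finset.prod_le_one
        · intro p _; linarith [uo_le_one (Ω := Ω) n p]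
        · intro p _; linarith [uo_nonneg (Ω := Ω) n p]
    · rw [if_neg h]
      push Not at h
      obtain ⟨p, hp, hpn⟩ := h
      obtain ⟨i, hi, hpi⟩ := TT_cover S p hp I hI (hSY p hp)
      apply le_of_eq
      apply prod_eq_zero (mem_range.2 hi)
      apply prod_eq_zero hpi
      rw [uo, if_pos hpn]
      ring
  have h4 : ∑ n ∈ Ioc 0 k, L n
      ≤ (((Ioc 0 k).filter (fun n => ∀ p ∈ S, n % p ∉ Ω p)).card : ℝ) := by
    rw [Finset.card_filter]
    push_cast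
    exact sum_le_sum fun n _ => h3 n
  -- main term
  have hW : ∀ i, wb (TT S i) (rb I i) (dd Ω) / yb (TT S i) (rb I i) (dd Ω)
      ≤ (1 / 2 : ℝ) ^ (rb I i) * 2 ^ 208 := by
    intro i
    have h5 := wb_le (TT S i) (rb I i) (dd Ω) (fun p _ => dd_nonneg p)
    have h6 : Real.exp (2 * ∑ p ∈ TT S i, dd Ω p) ≤ Real.exp 48 := by
      apply Real.exp_le_exp.2
      linarith [hsum i]
    rw [div_le_iff₀ (hVpos i)]
    have h7 : (1 : ℝ) ≤ Real.exp 96 * yb (TT S i) (rb I i) (dd Ω) := by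
      have := mul_le_mul_of_nonneg_left (hVge i) (Real.exp_pos 96).le
      rwa [← Real.exp_add, add_neg_cancel, Real.exp_zero] at this
    calc wb (TT S i) (rb I i) (dd Ω) ≤ (1 / 2 : ℝ) ^ (rb I i) * Real.exp 48 :=
          h5.trans (mul_le_mul_of_nonneg_left h6 (by positivity))
      _ = (1 / 2 : ℝ) ^ (rb I i) * Real.exp 48 * 1 := by ring
      _ ≤ (1 / 2 : ℝ) ^ (rb I i) * Real.exp 48 *
            (Real.exp 96 * yb (TT S i) (rb I i) (dd Ω)) :=
          mul_le_mul_of_nonneg_left h7 (by positivity)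
      _ = (1 / 2 : ℝ) ^ (rb I i) * (Real.exp 48 * Real.exp 96) * yb (TT S i) (rb I i) (dd Ω) := by
          ring
      _ ≤ (1 / 2 : ℝ) ^ (rb I i) * 2 ^ 208 * yb (TT S i) (rb I i) (dd Ω) := by
          apply mul_le_mul_of_nonneg_right _ (hVpos i).le
          apply mul_le_mul_of_nonneg_left _ (by positivity)
          rw [← Real.exp_add, show (48 : ℝ) + 96 = 144 by norm_num]
          exact exp144
  have hWs : ∑ i ∈ range I, wb (TT S i) (rb I i) (dd Ω) / yb (TT S i) (rb I i) (dd Ω)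
      ≤ 1 / 2 := by
    refine (sum_le_sum fun i _ => hW i).trans ?_
    rw [← sum_mul]
    have := geom_sum_boundB I
    calc (∑ i ∈ range I, (1 / 2 : ℝ) ^ rb I i) * 2 ^ 208 ≤ 1 / 2 ^ 211 * 2 ^ 208 :=
          mul_le_mul_of_nonneg_right this (by positivity)
      _ ≤ 1 / 2 := by norm_num
  have hVprod : Real.exp (-96) ^ I ≤ ∏ i ∈ range I, yb (TT S i) (rb I i) (dd Ω) := by
    calc Real.exp (-96) ^ I = ∏ i ∈ range I, Real.exp (-96) := by simp
      _ ≤ _ := prod_le_prod (fun i _ => (Real.exp_pos _).le) (fun i _ => hVge i)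
  have hmain : Real.exp (-96) ^ I / 2 ≤ (∏ i ∈ range I, yb (TT S i) (rb I i) (dd Ω))
      * (1 - ∑ i ∈ range I, wb (TT S i) (rb I i) (dd Ω) / yb (TT S i) (rb I i) (dd Ω)) := by
    have hp : 0 < Real.exp (-96) ^ I := by positivity
    calc Real.exp (-96) ^ I / 2 = Real.exp (-96) ^ I * (1 / 2) := by ring
      _ ≤ _ := mul_le_mul hVprod (by linarith) (by norm_num) (hp.le.trans hVprod)
  -- error term
  have hE : ∏ i ∈ range I, Nk 6 (TT S i) (rb I i) ≤ (2 : ℝ) ^ (1292 * 2 ^ I) := by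
    have h5 : ∀ i ∈ range I, Nk 6 (TT S i) (rb I i)
        ≤ (2 : ℝ) ^ (2 ^ (i + 1) * (3 * rb I i + 1)) := by
      intro i _
      have h6 := Nk_le6 (TT S i) (rb I i) (2 ^ 2 ^ (i + 1)) (by
        calc 4 = 2 ^ 2 ^ 1 := by norm_num
          _ ≤ 2 ^ 2 ^ (i + 1) := Nat.pow_le_pow_right (by norm_num)
              (Nat.pow_le_pow_right (by norm_num) (by omega))) (by
        intro p hp
        refine ⟨(hTp i p hp).one_le, ?_⟩
        rw [TT, mem_filter] at hp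
        exact hp.2.1)
      refine h6.trans (le_of_eq ?_)
      push_cast
      rw [← pow_mul]
    refine (prod_le_prod (fun i _ => Nk_nonneg _ _ _) h5).trans ?_
    rw [prod_pow_eq_pow_sum]
    apply pow_le_pow_right₀ (by norm_num)
    have := exponent_sumB I
    omega
  have hk : (0 : ℝ) ≤ k := Nat.cast_nonneg k
  have := mul_le_mul_of_nonneg_left hmain hk
  linarith

end Pool.Agent.H328R3
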